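import Mathlib

set_option autoImplicit false

/-! # Exponential sums: basics -/

namespace Pool.Agent.H895R3.NU

open Finset

/-- `e(x) = exp(2 π i x)` -/
noncomputable def e (x : ℝ) : ℂ := Complex.exp (((2 * Real.pi * x : ℝ) : ℂ) * Complex.I)

lemma e_zero : e 0 = 1 := by simp [e]

lemma e_add (x y : ℝ) : e (x + y) = e x * e y := by
  unfold e
  rw [← Complex.exp_add]
  congr 1
  push_cast
  ring

lemma norm_e (x : ℝ) : ‖e x‖ = 1 := Complex.norm_exp_ofReal_mul_I _

lemma e_ne_zero (x : ℝ) : e x ≠ 0 := by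
  rw [← norm_pos_iff, norm_e]; norm_num

lemma conj_e (x : ℝ) : (starRingEnd ℂ) (e x) = e (-x) := by
  unfold e
  rw [← Complex.exp_conj]
  congr 1
  rw [map_mul, Complex.conj_ofReal, Complex.conj_I]
  push_cast
  ring

lemma e_int (n : ℤ) : e n = 1 := by
  unfold e
  rw [Complex.exp_eq_one_iff]
  refine ⟨n, ?_⟩
  push_cast
  ring

lemma e_nat (n : ℕ) : e n = 1 := by
  have := e_int n
  exact_mod_cast this

lemma e_eq_one_iff (x : ℝ) : e x = 1 ↔ ∃ n : ℤ, x = n := by
  constructor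
  · intro h
    unfold e at h
    rw [Complex.exp_eq_one_iff] at h
    obtain ⟨n, hn⟩ := h
    refine ⟨n, ?_⟩
    have h2 : ((2 * Real.pi * x : ℝ) : ℂ) = ((n * (2 * Real.pi) : ℝ) : ℂ) := by
      have h3 : ((2 * Real.pi * x : ℝ) : ℂ) * Complex.I = ((n * (2 * Real.pi) : ℝ) : ℂ) * Complex.I := by
        rw [hn]; push_cast; ring
      exact mul_right_cancel₀ Complex.I_ne_zero h3
    have h4 : 2 * Real.pi * x = n * (2 * Real.pi) := by exact_mod_cast h2
    have hpi := Real.pi_pos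
    have : (2 * Real.pi) * (x - n) = 0 := by linarith
    rcases mul_eq_zero.mp this with h | h
    · exfalso; linarith
    · linarith
  · rintro ⟨n, rfl⟩
    exact e_int n

lemma e_nat_mul (n : ℕ) (x : ℝ) : e (n * x) = e x ^ n := by
  induction n with
  | zero => simp [e_zero]
  | succ n ih =>
    rw [pow_succ, ← ih, ← e_add]
    congr 1
    push_cast
    ring

lemma e_sum {ι : Type} (s : Finset ι) (f : ι → ℝ) : e (∑ i ∈ s, f i) = ∏ i ∈ s, e (f i) := by
  classical
  induction s using Finset.induction_on with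
  | empty => simp [e_zero]
  | insert a s ha ih => rw [sum_insert ha, prod_insert ha, e_add, ih]

/-- orthogonality -/
lemma orth (p : ℕ) (hp : 0 < p) (z : ℤ) :
    ∑ h ∈ range p, e (h * (z / p)) = if (p : ℤ) ∣ z then (p : ℂ) else 0 := by
  have hp0 : (p : ℝ) ≠ 0 := by exact_mod_cast hp.ne'
  split_ifs with hd
  · obtain ⟨w, rfl⟩ := hd
    rw [sum_congr rfl (g := fun _ => (1 : ℂ))]
    · simp
    · intro h _
      have : (h : ℝ) * (((p : ℤ) * w : ℤ) / p) = ((h * w : ℤ) : ℝ) := by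
        push_cast
        field_simp
      rw [this, e_int]
  · have h1 : ∀ h ∈ range p, e (h * (z / p)) = e (z / p) ^ h := fun h _ => e_nat_mul h _
    rw [sum_congr rfl h1]
    have hne : e ((z : ℝ) / p) ≠ 1 := by
      intro hh
      rw [e_eq_one_iff] at hh
      obtain ⟨n, hn⟩ := hh
      apply hd
      refine ⟨n, ?_⟩
      rw [div_eq_iff hp0] at hn
      have : (z : ℝ) = ((p * n : ℤ) : ℝ) := by push_cast; linarith
      exact_mod_cast this
    rw [geom_sum_eq hne, ← e_nat_mul]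
    have : (p : ℝ) * ((z : ℝ) / p) = z := by field_simp
    rw [this, e_int]
    simp

lemma norm_one_add_e (x : ℝ) : ‖1 + e x‖ = 2 * |Real.cos (Real.pi * x)| := by
  have h1 : (1 + e x) = e (x / 2) * (2 * Real.cos (Real.pi * x) : ℝ) := by
    have h2 : e x = e (x / 2) * e (x / 2) := by rw [← e_add]; congr 1; ring
    have h3 : (1 : ℂ) = e (x / 2) * e (-(x / 2)) := by rw [← e_add]; simp [e_zero]
    have h4 : ((2 * Real.cos (Real.pi * x) : ℝ) : ℂ) = e (x / 2) + e (-(x / 2)) := by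
      unfold e
      have h5 : ((2 * Real.pi * (x / 2) : ℝ) : ℂ) = ((Real.pi * x : ℝ) : ℂ) := by
        congr 1; ring
      have h6 : ((2 * Real.pi * (-(x / 2)) : ℝ) : ℂ) = -((Real.pi * x : ℝ) : ℂ) := by
        rw [← Complex.ofReal_neg]; congr 1; ring
      rw [h5, h6]
      push_cast
      rw [Complex.two_cos]
    rw [h4, mul_add, ← h3, ← h2]
    ring
  rw [h1, norm_mul, norm_e, one_mul, Complex.norm_real, Real.norm_eq_abs, abs_mul, abs_two]

lemma norm_one_sub_e (x : ℝ) : ‖1 - e x‖ = 2 * |Real.sin (Real.pi * x)| := by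
  have h1 : (1 - e x) = e (x / 2) * ((-2 * Real.sin (Real.pi * x) : ℝ) * Complex.I) := by
    have h2 : e x = e (x / 2) * e (x / 2) := by rw [← e_add]; congr 1; ring
    have h3 : (1 : ℂ) = e (x / 2) * e (-(x / 2)) := by rw [← e_add]; simp [e_zero]
    have h4 : ((-2 * Real.sin (Real.pi * x) : ℝ) : ℂ) * Complex.I = e (-(x / 2)) - e (x / 2) := by
      unfold e
      have h5 : ((2 * Real.pi * (x / 2) : ℝ) : ℂ) = ((Real.pi * x : ℝ) : ℂ) := by
        congr 1; ring
      have h6 : ((2 * Real.pi * (-(x / 2)) : ℝ) : ℂ) = -((Real.pi * x : ℝ) : ℂ) := by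
        rw [← Complex.ofReal_neg]; congr 1; ring
      rw [h5, h6]
      have h7 := Complex.two_sin ((Real.pi * x : ℝ) : ℂ)
      have h8 : ((-2 * Real.sin (Real.pi * x) : ℝ) : ℂ) = -(2 * Complex.sin ((Real.pi * x : ℝ) : ℂ)) := by
        push_cast; ring
      rw [h8, h7]
      have hI : Complex.I * Complex.I = -1 := Complex.I_mul_I
      linear_combination (-(Complex.exp (-((Real.pi * x : ℝ) : ℂ) * Complex.I) - Complex.exp (((Real.pi * x : ℝ) : ℂ) * Complex.I))) * hI
    rw [h4, mul_sub, ← h3, ← h2]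
  rw [h1, norm_mul, norm_e, one_mul, norm_mul, Complex.norm_I, mul_one, Complex.norm_real,
    Real.norm_eq_abs, abs_mul, abs_neg, abs_two]

/-- the sum over an interval -/
noncomputable def SS (v : ℕ) (x : ℝ) : ℂ := ∑ y ∈ range v, e (y * x)

lemma SS_small (m : ℕ) (x : ℝ) : ‖SS (2 * m) x‖ ≤ 2 * m * |Real.cos (Real.pi * (m * x))| := by
  have h1 : SS (2 * m) x = (1 + e (m * x)) * SS m x := by
    unfold SS
    rw [two_mul, sum_range_add, add_mul, one_mul, mul_sum]
    congr 1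
    refine sum_congr rfl fun y _ => ?_
    rw [← e_add]
    congr 1
    push_cast
    ring
  have h2 : ‖SS m x‖ ≤ m := by
    unfold SS
    refine (norm_sum_le _ _).trans ?_
    simp [norm_e]
  rw [h1, norm_mul, norm_one_add_e]
  have h3 : 0 ≤ |Real.cos (Real.pi * (m * x))| := abs_nonneg _
  nlinarith

lemma SS_large (v : ℕ) (x : ℝ) (hx0 : 0 < x) (hx1 : x ≤ 1 / 2) : ‖SS v x‖ ≤ 1 / (2 * x) := by
  have h1 : SS v x * (1 - e x) = 1 - e (v * x) := by
    unfold SS
    have h : ∀ y ∈ range v, e (y * x) = e x ^ y := fun y _ => e_nat_mul y x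
    rw [sum_congr rfl h, e_nat_mul]
    have := mul_neg_geom_sum (e x) v
    rw [mul_comm]
    exact this
  have h2 : ‖1 - e x‖ = 2 * |Real.sin (Real.pi * x)| := norm_one_sub_e x
  have h3 : 2 * x ≤ Real.sin (Real.pi * x) := by
    have hpi := Real.pi_pos
    have := Real.mul_le_sin (x := Real.pi * x) (by positivity) (by nlinarith)
    calc 2 * x = 2 / Real.pi * (Real.pi * x) := by field_simp
      _ ≤ _ := this
  have h4 : 4 * x ≤ ‖1 - e x‖ := by
    rw [h2]
    have := le_abs_self (Real.sin (Real.pi * x))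
    linarith
  have h5 : ‖SS v x‖ * ‖1 - e x‖ ≤ 2 := by
    rw [← norm_mul, h1]
    calc ‖1 - e (v * x)‖ ≤ ‖(1 : ℂ)‖ + ‖e (v * x)‖ := norm_sub_le _ _
      _ = 2 := by rw [norm_e]; norm_num
  have h6 : ‖SS v x‖ * (4 * x) ≤ 2 :=
    (mul_le_mul_of_nonneg_left h4 (norm_nonneg _)).trans h5
  rw [le_div_iff₀ (by positivity)]
  linarith

/-- the constant -/
noncomputable def b0 : ℝ := Real.cos (Real.pi / 24)

lemma b0_lt : b0 < 1 := by
  unfold b0
  have hpi := Real.pi_pos
  have h := Real.cos_lt_cos_of_nonneg_of_le_pi (x := 0) (y := Real.pi / 24) le_rfl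
    (by linarith) (by positivity)
  rwa [Real.cos_zero] at h

lemma b0_ge : 1 / 2 ≤ b0 := by
  unfold b0
  have hpi := Real.pi_pos
  have h := Real.cos_le_cos_of_nonneg_of_le_pi (x := Real.pi / 24) (y := Real.pi / 3)
    (by positivity) (by linarith) (by linarith)
  rwa [Real.cos_pi_div_three] at h

lemma SS_bound (m : ℕ) (x : ℝ) (hm : 0 < m) (hx0 : 0 < x) (hx1 : x ≤ 1 / 2) (hx : 1 / 24 ≤ m * x) :
    ‖SS (2 * m) x‖ ≤ b0 * (2 * m) := by
  have hm0 : (0 : ℝ) < m := by exact_mod_cast hm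
  have hpi := Real.pi_pos
  by_cases h : (m : ℝ) * x ≤ 1 / 2
  · refine (SS_small m x).trans ?_
    have h1 : |Real.cos (Real.pi * (m * x))| ≤ b0 := by
      rw [abs_of_nonneg (Real.cos_nonneg_of_neg_pi_div_two_le_of_le (by nlinarith) (by nlinarith))]
      unfold b0
      apply Real.cos_le_cos_of_nonneg_of_le_pi (by positivity) (by nlinarith)
      nlinarith
    nlinarith
  · push Not at h
    refine (SS_large (2 * m) x hx0 hx1).trans ?_
    have h1 : 1 / (2 * x) ≤ m := by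
      rw [div_le_iff₀ (by positivity)]
      nlinarith
    have := b0_ge
    nlinarith

lemma SS_symm (v p h : ℕ) (hh : h ≤ p) (hp : 0 < p) :
    ‖SS v ((h : ℝ) / p)‖ = ‖SS v (((p - h : ℕ) : ℝ) / p)‖ := by
  have hp0 : (p : ℝ) ≠ 0 := by exact_mod_cast hp.ne'
  have h1 : SS v ((h : ℝ) / p) = (starRingEnd ℂ) (SS v (((p - h : ℕ) : ℝ) / p)) := by
    unfold SS
    rw [map_sum]
    refine sum_congr rfl fun y _ => ?_
    rw [conj_e]
    have h2 : (y : ℝ) * ((h : ℝ) / p) = (y : ℝ) + -((y : ℝ) * (((p - h : ℕ) : ℝ) / p)) := by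
      rw [Nat.cast_sub hh]
      field_simp
      ring
    rw [h2, e_add, e_nat, one_mul]
  rw [h1, RCLike.norm_conj]

/-- all nonzero frequencies modulo `p` -/
lemma SS_freq (m p h : ℕ) (hm : 0 < m) (hmp : p ≤ 24 * m) (h0 : 0 < h) (hp : h < p) :
    ‖SS (2 * m) ((h : ℝ) / p)‖ ≤ b0 * (2 * m) := by
  have hp0 : (0 : ℝ) < p := by exact_mod_cast (by omega : 0 < p)
  have hmp' : (p : ℝ) ≤ 24 * m := by exact_mod_cast hmp
  have key : ∀ g : ℕ, 0 < g → 2 * g ≤ p → ‖SS (2 * m) ((g : ℝ) / p)‖ ≤ b0 * (2 * m) := by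
    intro g hg hg2
    have hg' : (1 : ℝ) ≤ g := by exact_mod_cast hg
    have hg2' : 2 * (g : ℝ) ≤ p := by exact_mod_cast hg2
    refine SS_bound m _ hm (by positivity) ?_ ?_
    · rw [div_le_iff₀ hp0]; linarith
    · rw [← mul_div_assoc, le_div_iff₀ hp0]
      nlinarith
  by_cases hc : 2 * h ≤ p
  · exact key h h0 hc
  · rw [SS_symm _ p h hp.le (by omega)]
    exact key (p - h) (by omega) (by omega)

/-- Parseval -/
lemma parseval (v p : ℕ) (hp : 0 < p) (hv : v ≤ p) :
    ∑ h ∈ range p, ‖SS v ((h : ℝ) / p)‖ ^ 2 = p * v := by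
  have h1 : ∀ h ∈ range p, ((‖SS v ((h : ℝ) / p)‖ ^ 2 : ℝ) : ℂ)
      = ∑ y ∈ range v, ∑ y' ∈ range v, e (h * ((((y : ℤ) - y' : ℤ) : ℝ) / p)) := by
    intro h _
    have h2 : ((‖SS v ((h : ℝ) / p)‖ ^ 2 : ℝ) : ℂ)
        = SS v ((h : ℝ) / p) * (starRingEnd ℂ) (SS v ((h : ℝ) / p)) := by
      rw [Complex.mul_conj, Complex.normSq_eq_norm_sq]
    rw [h2]
    unfold SS
    rw [map_sum, sum_mul_sum]
    refine sum_congr rfl fun y _ => sum_congr rfl fun y' _ => ?_
    rw [conj_e, ← e_add]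
    congr 1
    push_cast
    ring
  have h3 : ((∑ h ∈ range p, ‖SS v ((h : ℝ) / p)‖ ^ 2 : ℝ) : ℂ) = ((p * v : ℝ) : ℂ) := by
    rw [Complex.ofReal_sum, sum_congr rfl h1, sum_comm]
    have h4 : ∀ y ∈ range v, ∑ h ∈ range p, ∑ y' ∈ range v,
        e (h * ((((y : ℤ) - y' : ℤ) : ℝ) / p)) = p := by
      intro y hy
      rw [sum_comm]
      have h5 : ∀ y' ∈ range v, ∑ h ∈ range p, e (h * ((((y : ℤ) - y' : ℤ) : ℝ) / p))
          = if y' = y then (p : ℂ) else 0 := by
        intro y' hy'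
        rw [orth p hp]
        rw [mem_range] at hy hy'
        by_cases hyy : y' = y
        · subst hyy; simp
        · rw [if_neg hyy, if_neg]
          intro hd
          have h6 : |(y : ℤ) - y'| < p := by
            rw [abs_lt]
            constructor <;> omega
          have h7 := Int.eq_zero_of_abs_lt_dvd hd h6
          omega
      rw [sum_congr rfl h5, sum_ite_eq' (range v) y (fun _ => (p : ℂ)), if_pos hy]
    rw [sum_congr rfl h4]
    simp
    ring
  exact_mod_cast h3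

end Pool.Agent.H895R3.NU
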