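import Pool.Agent.H895R3.NU.F1

set_option autoImplicit false

/-! # Expansion of products of exponential sums -/

namespace Pool.Agent.H895R3.NU

open Finset

noncomputable def DD (N : ℕ) (x : ℝ) : ℂ := ∑ y ∈ Icc 1 N, e (y * x)

section
variable {ι : Type} [Fintype ι] [DecidableEq ι]

/-- the frequency attached to `h` -/
noncomputable def th (P : ι → ℕ) (E : ℕ) (h : ι → ℕ) : ℝ := E * ∑ i, (h i : ℝ) / P i

lemma expand (P : ι → ℕ) (a : ι → ℕ → ℂ) (z : ℝ) :
    ∏ i, (∑ h ∈ range (P i), a i h * e (h * (z / P i)))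
      = ∑ h ∈ Fintype.piFinset (fun i => range (P i)), (∏ i, a i (h i)) *
          e (z * ∑ i, (h i : ℝ) / P i) := by
  rw [Finset.prod_univ_sum]
  refine sum_congr rfl fun h _ => ?_
  rw [prod_mul_distrib, ← e_sum]
  congr 2
  rw [mul_sum]
  refine sum_congr rfl fun i _ => ?_
  ring

lemma sum_plus (P : ι → ℕ) (E N : ℕ) (a : ι → ℕ → ℂ) :
    ∑ x ∈ Icc 1 N, ∑ y ∈ Icc 1 N,
        ∏ i, (∑ h ∈ range (P i), a i h * e (h * ((((x : ℝ) + y) * E) / P i)))
      = ∑ h ∈ Fintype.piFinset (fun i => range (P i)), (∏ i, a i (h i)) * (DD N (th P E h)) ^ 2 := by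
  have h1 : ∀ x ∈ Icc 1 N, ∀ y ∈ Icc 1 N,
      ∏ i, (∑ h ∈ range (P i), a i h * e (h * ((((x : ℝ) + y) * E) / P i)))
      = ∑ h ∈ Fintype.piFinset (fun i => range (P i)), (∏ i, a i (h i)) *
          (e (x * th P E h) * e (y * th P E h)) := by
    intro x _ y _
    rw [expand]
    refine sum_congr rfl fun h _ => ?_
    rw [← e_add]
    congr 2
    unfold th
    ring
  rw [sum_congr rfl fun x hx => sum_congr rfl fun y hy => h1 x hx y hy]
  rw [sum_congr rfl fun x _ => sum_comm]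
  rw [sum_comm]
  refine sum_congr rfl fun h _ => ?_
  unfold DD
  rw [sq, sum_mul_sum, mul_sum]
  refine sum_congr rfl fun x _ => ?_
  rw [mul_sum]

lemma sum_minus (P : ι → ℕ) (E N : ℕ) (c : ι → ℕ → ℝ) :
    ∑ x ∈ Icc 1 N, ∑ y ∈ Icc 1 N,
        ∏ i, (∑ h ∈ range (P i), (c i h : ℂ) * e (h * ((((x : ℝ) - y) * E) / P i)))
      = ((∑ h ∈ Fintype.piFinset (fun i => range (P i)),
          (∏ i, c i (h i)) * ‖DD N (th P E h)‖ ^ 2 : ℝ) : ℂ) := by
  have h1 : ∀ x ∈ Icc 1 N, ∀ y ∈ Icc 1 N,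
      ∏ i, (∑ h ∈ range (P i), (c i h : ℂ) * e (h * ((((x : ℝ) - y) * E) / P i)))
      = ∑ h ∈ Fintype.piFinset (fun i => range (P i)), (∏ i, (c i (h i) : ℂ)) *
          (e (x * th P E h) * (starRingEnd ℂ) (e (y * th P E h))) := by
    intro x _ y _
    rw [expand]
    refine sum_congr rfl fun h _ => ?_
    rw [conj_e, ← e_add]
    congr 2
    unfold th
    ring
  rw [sum_congr rfl fun x hx => sum_congr rfl fun y hy => h1 x hx y hy]
  rw [sum_congr rfl fun x _ => sum_comm]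
  rw [sum_comm, Complex.ofReal_sum]
  refine sum_congr rfl fun h _ => ?_
  have h2 : ((‖DD N (th P E h)‖ ^ 2 : ℝ) : ℂ)
      = DD N (th P E h) * (starRingEnd ℂ) (DD N (th P E h)) := by
    rw [Complex.mul_conj, Complex.normSq_eq_norm_sq]
  rw [Complex.ofReal_mul, h2, Complex.ofReal_prod]
  unfold DD
  rw [map_sum, sum_mul_sum, mul_sum]
  refine sum_congr rfl fun x _ => ?_
  rw [mul_sum]

/-- number of pairs in a residue class -/
lemma count_pairs (N Q : ℕ) (hQ : 0 < Q) :
    ((((Icc 1 N) ×ˢ (Icc 1 N)).filter fun q => (Q : ℤ) ∣ (q.1 : ℤ) - q.2).card : ℝ)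
      ≤ N * (N / Q + 1) := by
  have h1 : (((Icc 1 N) ×ˢ (Icc 1 N)).filter fun q => (Q : ℤ) ∣ (q.1 : ℤ) - q.2).card
      ≤ N * (N / Q + 1) := by
    rw [card_filter, sum_product]
    have h2 : ∀ x ∈ Icc 1 N, (∑ y ∈ Icc 1 N, if (Q : ℤ) ∣ (x : ℤ) - y then 1 else 0)
        ≤ N / Q + 1 := by
      intro x _
      rw [← card_filter]
      have h3 : ((Icc 1 N).filter fun y : ℕ => (Q : ℤ) ∣ (x : ℤ) - y).card
          ≤ (range (N / Q + 1)).card := by
        refine card_le_card_of_injOn (fun y => y / Q) ?_ ?_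
        · intro y hy
          simp only [coe_filter, mem_Icc, Set.mem_ofPred_eq] at hy
          simp only [coe_range, Set.mem_Iio]
          have := Nat.div_le_div_right (c := Q) hy.1.2
          omega
        · intro y hy y' hy' hyy
          simp only [coe_filter, mem_Icc, Set.mem_ofPred_eq] at hy hy'
          simp only at hyy
          have h4 : (Q : ℤ) ∣ (y : ℤ) - y' := by
            have := dvd_sub hy'.2 hy.2
            have h5 : ((x : ℤ) - y') - (x - y) = y - y' := by ring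
            rwa [h5] at this
          have h6 : y ≡ y' [MOD Q] := by
            rw [Nat.modEq_iff_dvd]
            have := (dvd_neg.mpr h4)
            rwa [neg_sub] at this
          have h7 := Nat.div_add_mod y Q
          have h8 := Nat.div_add_mod y' Q
          rw [Nat.ModEq] at h6
          rw [hyy, h6] at h7
          omega
      simpa using h3
    calc _ ≤ ∑ x ∈ Icc 1 N, (N / Q + 1) := sum_le_sum h2
      _ = _ := by simp
  calc ((((Icc 1 N) ×ˢ (Icc 1 N)).filter fun q => (Q : ℤ) ∣ (q.1 : ℤ) - q.2).card : ℝ)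
      ≤ ((N * (N / Q + 1) : ℕ) : ℝ) := by exact_mod_cast h1
    _ ≤ _ := by
      push_cast
      have : ((N / Q : ℕ) : ℝ) ≤ N / Q := Nat.cast_div_le
      gcongr

/-- the box bound -/
lemma box (P : ι → ℕ) (E N : ℕ) (hP : ∀ i, (P i).Prime) (hinj : Function.Injective P)
    (hE : ∀ i, ¬ P i ∣ E) (c : ι → ℕ → ℝ) (A b : ℝ) (hA : 0 ≤ A) (hb : 0 ≤ b)
    (T V : Finset ι) (hVT : V ⊆ T) (hcV : ∀ i ∈ V, ∀ h, c i h = b)
    (hc0 : ∀ i h, 0 ≤ c i h) (hcT : ∀ i ∈ T \ V, ∑ h ∈ range (P i), c i h ≤ A)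
    (hcn : ∀ i, i ∉ T → ∑ h ∈ range (P i), c i h ≤ 1) :
    ∑ h ∈ Fintype.piFinset (fun i => range (P i)), (∏ i, c i (h i)) * ‖DD N (th P E h)‖ ^ 2
      ≤ A ^ (T \ V).card * b ^ V.card * ((N : ℝ) ^ 2 + N * ∏ i ∈ V, (P i : ℝ)) := by
  have hP0 : ∀ i, 0 < P i := fun i => (hP i).pos
  set Q : ℕ := ∏ i ∈ V, P i with hQ
  have hQ0 : 0 < Q := prod_pos fun i _ => hP0 i
  have hQr : (∏ i ∈ V, (P i : ℝ)) = (Q : ℝ) := by rw [hQ]; push_cast; rfl
  set S : ℝ := ∑ h ∈ Fintype.piFinset (fun i => range (P i)), (∏ i, c i (h i)) *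
    ‖DD N (th P E h)‖ ^ 2 with hS
  have hS0 : 0 ≤ S := sum_nonneg fun h _ => mul_nonneg (prod_nonneg fun i _ => hc0 i _) (by positivity)
  -- one factor
  have hfac : ∀ (x y : ℕ) (i : ι), ‖∑ h ∈ range (P i), (c i h : ℂ) * e (h * ((((x : ℝ) - y) * E) / P i))‖
      ≤ if i ∈ V then (if (P i : ℤ) ∣ (x : ℤ) - y then b * P i else 0)
        else if i ∈ T then A else 1 := by
    intro x y i
    by_cases hi : i ∈ V
    · rw [if_pos hi]
      have h1 : ∑ h ∈ range (P i), (c i h : ℂ) * e (h * ((((x : ℝ) - y) * E) / P i))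
          = b * ∑ h ∈ range (P i), e (h * (((((x : ℤ) - y) * E : ℤ) : ℝ) / P i)) := by
        rw [mul_sum]
        refine sum_congr rfl fun h _ => ?_
        rw [hcV i hi h]
        push_cast
        rfl
      rw [h1, orth (P i) (hP0 i)]
      by_cases hd : (P i : ℤ) ∣ (x : ℤ) - y
      · rw [if_pos hd, if_pos (hd.mul_right _)]
        rw [norm_mul, Complex.norm_real, Real.norm_of_nonneg hb, Complex.norm_natCast]
      · rw [if_neg hd, if_neg]
        · simp
        · intro hdd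
          have hpp : Prime (P i : ℤ) := Nat.prime_iff_prime_int.mp (hP i)
          rcases hpp.dvd_or_dvd hdd with h | h
          · exact hd h
          · exact hE i (by exact_mod_cast h)
    · rw [if_neg hi]
      have h1 : ‖∑ h ∈ range (P i), (c i h : ℂ) * e (h * ((((x : ℝ) - y) * E) / P i))‖
          ≤ ∑ h ∈ range (P i), c i h := by
        refine (norm_sum_le _ _).trans (sum_le_sum fun h _ => ?_)
        rw [norm_mul, norm_e, mul_one, Complex.norm_real, Real.norm_of_nonneg (hc0 i h)]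
      refine h1.trans ?_
      by_cases hT : i ∈ T
      · rw [if_pos hT]
        exact hcT i (mem_sdiff.mpr ⟨hT, hi⟩)
      · rw [if_neg hT]
        exact hcn i hT
  -- product
  have hprod : ∀ (x y : ℕ), ‖∏ i, ∑ h ∈ range (P i), (c i h : ℂ) * e (h * ((((x : ℝ) - y) * E) / P i))‖
      ≤ if (Q : ℤ) ∣ (x : ℤ) - y then A ^ (T \ V).card * b ^ V.card * Q else 0 := by
    intro x y
    rw [norm_prod]
    have h1 : ∏ i, ‖∑ h ∈ range (P i), (c i h : ℂ) * e (h * ((((x : ℝ) - y) * E) / P i))‖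
        ≤ ∏ i, (if i ∈ V then (if (P i : ℤ) ∣ (x : ℤ) - y then b * P i else 0)
        else if i ∈ T then A else 1) :=
      prod_le_prod (fun i _ => norm_nonneg _) fun i _ => hfac x y i
    refine h1.trans ?_
    by_cases hd : (Q : ℤ) ∣ (x : ℤ) - y
    · rw [if_pos hd]
      have h2 : ∀ i ∈ V, (P i : ℤ) ∣ (x : ℤ) - y := by
        intro i hi
        refine dvd_trans ?_ hd
        exact_mod_cast dvd_prod_of_mem P hi
      have h3 : ∏ i, (if i ∈ V then (if (P i : ℤ) ∣ (x : ℤ) - y then b * P i else 0)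
          else if i ∈ T then A else 1)
          = ∏ i, ((if i ∈ V then b * (P i : ℝ) else 1) * (if i ∈ T \ V then A else 1)) := by
        refine prod_congr rfl fun i _ => ?_
        by_cases hi : i ∈ V
        · rw [if_pos hi, if_pos hi, if_pos (h2 i hi), if_neg (by simp [hi]), mul_one]
        · rw [if_neg hi, if_neg hi, one_mul]
          by_cases hT : i ∈ T
          · rw [if_pos hT, if_pos (mem_sdiff.mpr ⟨hT, hi⟩)]
          · rw [if_neg hT, if_neg (by simp [hT])]
      rw [h3, prod_mul_distrib, prod_ite_mem, prod_ite_mem, univ_inter, univ_inter, prod_const,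
        prod_mul_distrib, prod_const, hQr]
      apply le_of_eq
      ring
    · rw [if_neg hd]
      have h2 : ∃ i ∈ V, ¬ (P i : ℤ) ∣ (x : ℤ) - y := by
        by_contra hcon
        push Not at hcon
        apply hd
        rw [hQ]
        push_cast
        refine Finset.prod_dvd_of_coprime ?_ hcon
        intro i _ j _ hij
        have hne : P i ≠ P j := fun h => hij (hinj h)
        exact (Nat.isCoprime_iff_coprime.mpr ((Nat.coprime_primes (hP i) (hP j)).mpr hne))
      obtain ⟨i, hi, hi2⟩ := h2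
      apply le_of_eq
      apply prod_eq_zero (mem_univ i)
      rw [if_pos hi, if_neg hi2]
  have h1 : S = ‖((S : ℝ) : ℂ)‖ := by rw [Complex.norm_real, Real.norm_of_nonneg hS0]
  rw [h1, hS, ← sum_minus]
  calc _ ≤ ∑ x ∈ Icc 1 N, ∑ y ∈ Icc 1 N,
        ‖∏ i, (∑ h ∈ range (P i), (c i h : ℂ) * e (h * ((((x : ℝ) - y) * E) / P i)))‖ := by
        refine (norm_sum_le _ _).trans (sum_le_sum fun x _ => norm_sum_le _ _)
    _ ≤ ∑ x ∈ Icc 1 N, ∑ y ∈ Icc 1 N,
        (if (Q : ℤ) ∣ (x : ℤ) - y then A ^ (T \ V).card * b ^ V.card * Q else 0) :=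
        sum_le_sum fun x _ => sum_le_sum fun y _ => hprod x y
    _ = ((((Icc 1 N) ×ˢ (Icc 1 N)).filter fun q => (Q : ℤ) ∣ (q.1 : ℤ) - q.2).card : ℝ)
        * (A ^ (T \ V).card * b ^ V.card * Q) := by
        rw [← sum_product', ← sum_filter, sum_const, nsmul_eq_mul]
    _ ≤ (N * (N / Q + 1)) * (A ^ (T \ V).card * b ^ V.card * Q) := by
        have := count_pairs N Q hQ0
        gcongr
    _ = _ := by
        rw [hQr]
        have hq0 : (Q : ℝ) ≠ 0 := by exact_mod_cast hQ0.ne'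
        have hq : (N : ℝ) * (N / Q + 1) * Q = N ^ 2 + N * Q := by
          rw [mul_assoc, add_mul, div_mul_cancel₀ _ hq0]
          ring
        rw [← hq]
        ring

end

end Pool.Agent.H895R3.NU
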