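import Pool.Agent.H895R3.NU.F2

set_option autoImplicit false

/-! # Existence of multiples with residues in prescribed windows -/

namespace Pool.Agent.H895R3.NU

open Finset

lemma e_add_mul (h x : ℝ) (y y' : ℝ) (p : ℝ) :
    e (h * (x / p)) * (e (y * (h / p)) * e (y' * (h / p))) = e (h * ((x + y + y') / p)) := by
  rw [← e_add, ← e_add]
  congr 1
  ring

/-- number of representations -/
def FF (v p x : ℕ) : ℕ := ((range v ×ˢ range v).filter fun q => p ∣ x + q.1 + q.2).card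

lemma FF_pos {v p x : ℕ} (h : FF v p x ≠ 0) : ∃ s, s + 2 ≤ 2 * v ∧ p ∣ x + s := by
  unfold FF at h
  rw [card_ne_zero] at h
  obtain ⟨q, hq⟩ := h
  rw [mem_filter, mem_product, mem_range, mem_range] at hq
  exact ⟨q.1 + q.2, by omega, by rw [← add_assoc]; exact hq.2⟩

lemma FF_fourier (v p x : ℕ) (hp : 0 < p) :
    ∑ h ∈ range p, (SS v ((h : ℝ) / p)) ^ 2 * e (h * ((x : ℝ) / p)) = p * FF v p x := by
  have h1 : ∀ h ∈ range p, (SS v ((h : ℝ) / p)) ^ 2 * e (h * ((x : ℝ) / p))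
      = ∑ q ∈ range v ×ˢ range v, e (h * ((((x + q.1 + q.2 : ℕ) : ℤ) : ℝ) / p)) := by
    intro h _
    unfold SS
    rw [sq, sum_mul_sum, sum_product, sum_mul]
    refine sum_congr rfl fun y _ => ?_
    rw [sum_mul]
    refine sum_congr rfl fun y' _ => ?_
    rw [mul_comm, e_add_mul]
    push_cast
    rfl
  rw [sum_congr rfl h1, sum_comm]
  have h2 : ∀ q ∈ range v ×ˢ range v, ∑ h ∈ range p, e (h * ((((x + q.1 + q.2 : ℕ) : ℤ) : ℝ) / p))
      = if p ∣ x + q.1 + q.2 then (p : ℂ) else 0 := by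
    intro q _
    rw [orth p hp]
    simp only [Int.natCast_dvd_natCast]
  rw [sum_congr rfl h2, ← sum_filter, sum_const, nsmul_eq_mul]
  unfold FF
  ring

section
variable {ι : Type} [Fintype ι] [DecidableEq ι]

lemma DD_zero (N : ℕ) : DD N 0 = N := by
  unfold DD
  simp [e_zero]

theorem exists_pair (P m : ι → ℕ) (E N D k X : ℕ) (hP : ∀ i, (P i).Prime)
    (hinj : Function.Injective P) (hE : ∀ i, ¬ P i ∣ E) (hm : ∀ i, 0 < m i)
    (hmP : ∀ i, P i ≤ 24 * m i) (hv : ∀ i, 2 * m i ≤ P i) (hX : ∀ i, P i ≤ X)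
    (hK : Fintype.card ι = D + k) (y : ℝ) (hy : 1 ≤ y) (hN0 : 0 < N)
    (hN : 4 * 2 ^ (D + k) * X ^ D ≤ N)
    (hpar : 2 * (b0 ^ 2) ^ D * (12 * y) ^ k * (1 + 1 / y) ^ (D + k) ≤ 1 / 4) :
    ∃ a ∈ Icc 1 N, ∃ c ∈ Icc 1 N, ∀ i, ∃ s, s + 2 ≤ 2 * (2 * m i) ∧ P i ∣ (a + c) * E + s := by
  have hP0 : ∀ i, 0 < P i := fun i => (hP i).pos
  by_contra hcon
  push Not at hcon
  -- normalised coefficients
  set g : ι → ℕ → ℂ := fun i h => SS (2 * m i) ((h : ℝ) / P i) / (2 * m i : ℕ) with hg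
  have hmr : ∀ i, (0 : ℝ) < ((2 * m i : ℕ) : ℝ) := fun i => by exact_mod_cast (by have := hm i; omega)
  have hgn : ∀ i h, ‖g i h‖ = ‖SS (2 * m i) ((h : ℝ) / P i)‖ / ((2 * m i : ℕ) : ℝ) := by
    intro i h
    simp only [hg]
    rw [norm_div, Complex.norm_natCast]
  have hg1 : ∀ i h, ‖g i h‖ ≤ 1 := by
    intro i h
    rw [hgn, div_le_one (hmr i)]
    unfold SS
    refine (norm_sum_le _ _).trans ?_
    simp [norm_e]
  have hg0 : ∀ i, g i 0 = 1 := by
    intro i
    simp only [hg]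
    have h1 : SS (2 * m i) (((0 : ℕ) : ℝ) / P i) = ((2 * m i : ℕ) : ℂ) := by
      unfold SS
      simp [e_zero]
    rw [h1, div_self]
    have := (hmr i).ne'
    exact_mod_cast this
  have hb00 : 0 ≤ b0 := by have := b0_ge; linarith
  have hgb : ∀ i h, h ≠ 0 → h < P i → ‖g i h‖ ≤ b0 := by
    intro i h h0 hp
    rw [hgn, div_le_iff₀ (hmr i)]
    have := SS_freq (m i) (P i) h (hm i) (hmP i) (Nat.pos_of_ne_zero h0) hp
    refine this.trans (le_of_eq ?_)
    push_cast
    ring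
  have hgA : ∀ i, ∑ h ∈ range (P i), ‖g i h‖ ^ 2 ≤ 12 := by
    intro i
    have h1 : ∑ h ∈ range (P i), ‖g i h‖ ^ 2 = (P i) / ((2 * m i : ℕ) : ℝ) := by
      have h2 : ∀ h ∈ range (P i), ‖g i h‖ ^ 2 = ‖SS (2 * m i) ((h : ℝ) / P i)‖ ^ 2 *
          (1 / ((2 * m i : ℕ) : ℝ) ^ 2) := by
        intro h _
        rw [hgn, div_pow]
        ring
      rw [sum_congr rfl h2, ← sum_mul, parseval _ _ (hP0 i) (hv i)]
      have := (hmr i).ne'
      field_simp
    rw [h1, div_le_iff₀ (hmr i)]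
    have := hmP i
    have h3 : (P i : ℝ) ≤ ((24 * m i : ℕ) : ℝ) := by exact_mod_cast this
    push_cast at h3 ⊢
    linarith
  set w : ι → ℕ → ℝ := fun i h => ‖g i h‖ ^ 2 with hw
  have hw0 : ∀ i h, 0 ≤ w i h := fun i h => by positivity
  have hw1 : ∀ i h, w i h ≤ 1 := fun i h => pow_le_one₀ (norm_nonneg _) (hg1 i h)
  have hwb : ∀ i h, h ≠ 0 → h < P i → w i h ≤ b0 ^ 2 := fun i h h0 hp =>
    pow_le_pow_left₀ (norm_nonneg _) (hgb i h h0 hp) 2
  -- the identity
  set H : Finset (ι → ℕ) := Fintype.piFinset (fun i => range (P i)) with hH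
  have hident : ∑ h ∈ H, (∏ i, (g i (h i)) ^ 2) * (DD N (th P E h)) ^ 2 = 0 := by
    rw [hH, ← sum_plus P E N (fun i h => (g i h) ^ 2)]
    refine sum_eq_zero fun a ha => sum_eq_zero fun c hc => ?_
    obtain ⟨i, hi⟩ := hcon a ha c hc
    apply prod_eq_zero (mem_univ i)
    have h1 : ∑ h ∈ range (P i), (g i h) ^ 2 * e (h * ((((a : ℝ) + c) * E) / P i))
        = (∑ h ∈ range (P i), (SS (2 * m i) ((h : ℝ) / P i)) ^ 2 *
          e (h * ((((a + c) * E : ℕ) : ℝ) / P i))) / ((2 * m i : ℕ) : ℂ) ^ 2 := by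
      rw [sum_div]
      refine sum_congr rfl fun h _ => ?_
      simp only [hg]
      push_cast
      ring
    rw [h1, FF_fourier _ _ _ (hP0 i)]
    have h2 : FF (2 * m i) (P i) ((a + c) * E) = 0 := by
      by_contra hne
      obtain ⟨s, hs1, hs2⟩ := FF_pos hne
      exact hi s hs1 hs2
    rw [h2]
    simp
  have hz : (fun _ : ι => (0 : ℕ)) ∈ H := by
    rw [hH, Fintype.mem_piFinset]
    intro i
    rw [mem_range]
    exact hP0 i
  have hth0 : th P E (fun _ => 0) = 0 := by unfold th; simp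
  have hmain : (N : ℝ) ^ 2 ≤ ∑ h ∈ H.erase (fun _ => 0), (∏ i, w i (h i)) * ‖DD N (th P E h)‖ ^ 2 := by
    have h1 := add_sum_erase H (fun h => (∏ i, (g i (h i)) ^ 2) * (DD N (th P E h)) ^ 2) hz
    simp only [hg0, one_pow, prod_const_one, one_mul, hth0, DD_zero] at h1
    rw [hident] at h1
    have h2 : ((N : ℂ)) ^ 2 = -∑ h ∈ H.erase (fun _ => 0), (∏ i, (g i (h i)) ^ 2) *
        (DD N (th P E h)) ^ 2 := by linear_combination h1
    have h3 : (N : ℝ) ^ 2 = ‖((N : ℂ)) ^ 2‖ := by rw [norm_pow, Complex.norm_natCast]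
    rw [h3, h2, norm_neg]
    refine (norm_sum_le _ _).trans (sum_le_sum fun h _ => le_of_eq ?_)
    rw [norm_mul, norm_pow, norm_prod]
    congr 1
    refine prod_congr rfl fun i _ => ?_
    rw [norm_pow]
  -- the majorants
  have hV : ∀ T : Finset ι, ∃ V : Finset ι, D ≤ T.card → V ⊆ T ∧ V.card = D := by
    intro T
    by_cases hT : D ≤ T.card
    · obtain ⟨V, hV1, hV2⟩ := exists_subset_card_eq hT
      exact ⟨V, fun _ => ⟨hV1, hV2⟩⟩
    · exact ⟨∅, fun h => absurd h hT⟩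
  choose V hV using hV
  set c : Finset ι → ι → ℕ → ℝ := fun T i h =>
    if T.card < D then (if i ∈ T then 1 else (if h = 0 then 1 else 0))
    else (if i ∈ V T then b0 ^ 2 else if i ∈ T then w i h else (if h = 0 then 1 else 0)) with hc
  have hc0 : ∀ T i h, 0 ≤ c T i h := by
    intro T i h
    simp only [hc]
    split_ifs <;> first | positivity | exact hw0 i h
  have hN1 : (0 : ℝ) < N := by exact_mod_cast hN0
  set G : Finset ι → ℝ := fun T => if T.card < D then N * (X : ℝ) ^ D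
    else 12 ^ k * (b0 ^ 2) ^ D * (2 * (N : ℝ) ^ 2) with hG
  have hX1 : ∀ T : Finset ι, (∏ i ∈ T, (P i : ℝ)) ≤ (X : ℝ) ^ T.card := by
    intro T
    rw [← prod_const]
    exact prod_le_prod (fun i _ => by positivity) fun i _ => by exact_mod_cast hX i
  have hND : (X : ℝ) ^ D ≤ N := by
    have h1 : X ^ D ≤ N := by
      refine le_trans ?_ hN
      have : 1 ≤ 4 * 2 ^ (D + k) := by
        have := Nat.one_le_two_pow (n := D + k)
        omega
      nlinarith [Nat.zero_le (X ^ D)]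
    exact_mod_cast h1
  have hsumT : ∀ T : Finset ι, T.Nonempty →
      ∑ h ∈ H.erase (fun _ => 0), (∏ i, c T i (h i)) * ‖DD N (th P E h)‖ ^ 2 ≤ G T := by
    intro T hTne
    have hsumn : ∀ i, ∑ h ∈ range (P i), (if h = 0 then (1 : ℝ) else 0) ≤ 1 := by
      intro i
      rw [sum_ite_eq' (range (P i)) 0 (fun _ => (1 : ℝ))]
      split_ifs <;> norm_num
    by_cases hT : T.card < D
    · have h1 := box P E N hP hinj hE (c T) 1 1 zero_le_one zero_le_one T T Subset.rfl
        (fun i hi h => by simp only [hc]; rw [if_pos hT, if_pos hi]) (hc0 T)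
        (fun i hi => by simp at hi)
        (fun i hi => by simp only [hc, if_pos hT, if_neg hi]; exact hsumn i)
      simp only [one_pow, one_mul] at h1
      have h2 := add_sum_erase H (fun h => (∏ i, c T i (h i)) * ‖DD N (th P E h)‖ ^ 2) hz
      have h3 : ∀ i, c T i 0 = 1 := by
        intro i
        simp only [hc]
        rw [if_pos hT]
        split_ifs <;> rfl
      simp only [h3, prod_const_one, one_mul, hth0, DD_zero, Complex.norm_natCast] at h2
      rw [← hH] at h1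
      have hTX : (∏ i ∈ T, (P i : ℝ)) ≤ (X : ℝ) ^ D := by
        refine (hX1 T).trans ?_
        obtain ⟨i, hi⟩ := hTne
        have : (1 : ℝ) ≤ X := by
          have := (hP0 i).trans_le (hX i)
          exact_mod_cast this
        exact pow_le_pow_right₀ this hT.le
      have h5 : (N : ℝ) * ∏ i ∈ T, (P i : ℝ) ≤ N * (X : ℝ) ^ D := by gcongr
      simp only [hG]
      rw [if_pos hT]
      linarith
    · have hT' : D ≤ T.card := not_lt.mp hT
      obtain ⟨hVT, hVc⟩ := hV T hT'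
      have h1 := box P E N hP hinj hE (c T) 12 (b0 ^ 2) (by norm_num) (by positivity) T (V T) hVT
        (fun i hi h => by simp only [hc]; rw [if_neg hT, if_pos hi]) (hc0 T)
        (fun i hi => by
          rw [mem_sdiff] at hi
          simp only [hc, if_neg hT, if_neg hi.2, if_pos hi.1]
          exact hgA i)
        (fun i hi => by
          have hiV : i ∉ V T := fun h => hi (hVT h)
          simp only [hc, if_neg hT, if_neg hiV, if_neg hi]
          exact hsumn i)
      rw [hVc] at h1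
      have h2 : ∑ h ∈ H.erase (fun _ => 0), (∏ i, c T i (h i)) * ‖DD N (th P E h)‖ ^ 2
          ≤ ∑ h ∈ H, (∏ i, c T i (h i)) * ‖DD N (th P E h)‖ ^ 2 :=
        sum_le_sum_of_subset_of_nonneg (erase_subset _ _) fun h _ _ =>
          mul_nonneg (prod_nonneg fun i _ => hc0 T i _) (by positivity)
      refine h2.trans (h1.trans ?_)
      simp only [hG]
      rw [if_neg hT]
      have h3 : (T \ V T).card ≤ k := by
        rw [card_sdiff_of_subset hVT, hVc]
        have := card_le_univ T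
        omega
      have h4 : (12 : ℝ) ^ (T \ V T).card ≤ 12 ^ k := pow_le_pow_right₀ (by norm_num) h3
      have h5 : (N : ℝ) ^ 2 + N * ∏ i ∈ V T, (P i : ℝ) ≤ 2 * (N : ℝ) ^ 2 := by
        have h6 := hX1 (V T)
        rw [hVc] at h6
        have h7 : (N : ℝ) * ∏ i ∈ V T, (P i : ℝ) ≤ N * N := by
          apply mul_le_mul_of_nonneg_left (h6.trans hND) hN1.le
        nlinarith
      have h8 : 0 ≤ (N : ℝ) ^ 2 + N * ∏ i ∈ V T, (P i : ℝ) := by positivity
      gcongr
  -- pointwise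
  have hpt : ∀ h ∈ H.erase (fun _ => 0), (∏ i, w i (h i)) * ‖DD N (th P E h)‖ ^ 2
      ≤ ∑ T ∈ (univ : Finset (Finset ι)).filter (fun T => T.Nonempty),
          (∏ i, c T i (h i)) * ‖DD N (th P E h)‖ ^ 2 := by
    intro h hh
    rw [mem_erase, hH, Fintype.mem_piFinset] at hh
    obtain ⟨hne, hr⟩ := hh
    set T : Finset ι := univ.filter fun i => h i ≠ 0 with hTd
    have hT : T.Nonempty := by
      by_contra hcc
      rw [not_nonempty_iff_eq_empty] at hcc
      apply hne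
      funext i
      by_contra hi
      have : i ∈ T := by rw [hTd, mem_filter]; exact ⟨mem_univ i, hi⟩
      rw [hcc] at this
      simp at this
    have hTm : ∀ i, i ∈ T ↔ h i ≠ 0 := fun i => by rw [hTd, mem_filter]; simp
    have h1 : (∏ i, w i (h i)) ≤ ∏ i, c T i (h i) := by
      refine prod_le_prod (fun i _ => hw0 i _) fun i _ => ?_
      simp only [hc]
      by_cases hTc : T.card < D
      · rw [if_pos hTc]
        by_cases hi : i ∈ T
        · rw [if_pos hi]; exact hw1 i _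
        · rw [if_neg hi, if_pos (by by_contra h0; exact hi ((hTm i).mpr h0))]
          exact hw1 i _
      · rw [if_neg hTc]
        obtain ⟨hVT, hVc⟩ := hV T (not_lt.mp hTc)
        by_cases hiV : i ∈ V T
        · rw [if_pos hiV]
          exact hwb i _ ((hTm i).mp (hVT hiV)) (mem_range.mp (hr i))
        · rw [if_neg hiV]
          by_cases hi : i ∈ T
          · rw [if_pos hi]
          · rw [if_neg hi, if_pos (by by_contra h0; exact hi ((hTm i).mpr h0))]
            exact hw1 i _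
    have h2 : (∏ i, w i (h i)) * ‖DD N (th P E h)‖ ^ 2
        ≤ (∏ i, c T i (h i)) * ‖DD N (th P E h)‖ ^ 2 := by gcongr
    refine h2.trans ?_
    exact single_le_sum (f := fun T => (∏ i, c T i (h i)) * ‖DD N (th P E h)‖ ^ 2)
      (fun T _ => mul_nonneg (prod_nonneg fun i _ => hc0 T i _) (by positivity))
      (mem_filter.mpr ⟨mem_univ T, hT⟩)
  have htot : (N : ℝ) ^ 2 ≤ ∑ T ∈ (univ : Finset (Finset ι)).filter (fun T => T.Nonempty), G T := by
    refine hmain.trans ((sum_le_sum hpt).trans ?_)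
    rw [sum_comm]
    exact sum_le_sum fun T hT => hsumT T (mem_filter.mp hT).2
  have hG0 : ∀ T, 0 ≤ G T := by
    intro T
    simp only [hG]
    split_ifs <;> positivity
  have htot2 : (N : ℝ) ^ 2 ≤ ∑ T : Finset ι, G T :=
    htot.trans (sum_le_sum_of_subset_of_nonneg (filter_subset _ _) fun T _ _ => hG0 T)
  have hcardT : ((univ : Finset (Finset ι)).card : ℝ) = 2 ^ (D + k) := by
    rw [card_univ, Fintype.card_finset, hK]
    push_cast
    rfl
  have hGle : ∀ T : Finset ι, G T ≤ N * (X : ℝ) ^ D +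
      (y ^ k * (1 / y) ^ ((univ : Finset ι).card - T.card)) *
        (12 ^ k * (b0 ^ 2) ^ D * (2 * (N : ℝ) ^ 2)) := by
    intro T
    have hy0 : 0 < y := by linarith
    simp only [hG]
    by_cases hT : T.card < D
    · rw [if_pos hT]
      have : 0 ≤ (y ^ k * (1 / y) ^ ((univ : Finset ι).card - T.card)) *
        (12 ^ k * (b0 ^ 2) ^ D * (2 * (N : ℝ) ^ 2)) := by positivity
      linarith
    · rw [if_neg hT]
      have h1 : (univ : Finset ι).card - T.card ≤ k := by
        rw [card_univ, hK]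
        omega
      have h2 : 1 ≤ y ^ k * (1 / y) ^ ((univ : Finset ι).card - T.card) := by
        rw [one_div, inv_pow, ← div_eq_mul_inv, one_le_div (by positivity)]
        exact pow_le_pow_right₀ hy h1
      have h3 : 0 ≤ 12 ^ k * (b0 ^ 2) ^ D * (2 * (N : ℝ) ^ 2) := by positivity
      have h4 : 0 ≤ (N : ℝ) * (X : ℝ) ^ D := by positivity
      nlinarith
  have hfin : ∑ T : Finset ι, G T ≤ 2 ^ (D + k) * (N * (X : ℝ) ^ D) +
      (y ^ k * (1 + 1 / y) ^ (D + k)) * (12 ^ k * (b0 ^ 2) ^ D * (2 * (N : ℝ) ^ 2)) := by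
    refine (sum_le_sum fun T _ => hGle T).trans ?_
    rw [sum_add_distrib, sum_const, nsmul_eq_mul, hcardT, ← sum_mul, ← mul_sum]
    have h1 : ∑ T : Finset ι, (1 / y) ^ ((univ : Finset ι).card - T.card) = (1 + 1 / y) ^ (D + k) := by
      have h2 := Finset.sum_pow_mul_eq_add_pow (1 : ℝ) (1 / y) (univ : Finset ι)
      rw [powerset_univ, card_univ, hK] at h2
      rw [card_univ, hK, ← h2]
      refine sum_congr rfl fun T _ => ?_
      rw [one_pow, one_mul]
    rw [h1]
  have hfirst : 2 ^ (D + k) * ((N : ℝ) * (X : ℝ) ^ D) ≤ (N : ℝ) ^ 2 / 4 := by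
    have h1 : (4 : ℝ) * 2 ^ (D + k) * (X : ℝ) ^ D ≤ N := by exact_mod_cast hN
    nlinarith
  have hsecond : (y ^ k * (1 + 1 / y) ^ (D + k)) * (12 ^ k * (b0 ^ 2) ^ D * (2 * (N : ℝ) ^ 2))
      ≤ (N : ℝ) ^ 2 / 4 := by
    have h1 : (y ^ k * (1 + 1 / y) ^ (D + k)) * (12 ^ k * (b0 ^ 2) ^ D * (2 * (N : ℝ) ^ 2))
        = (2 * (b0 ^ 2) ^ D * (12 * y) ^ k * (1 + 1 / y) ^ (D + k)) * (N : ℝ) ^ 2 := by
      rw [mul_pow]
      ring
    rw [h1]
    have h2 : 0 ≤ (N : ℝ) ^ 2 := by positivity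
    nlinarith
  have hpos : 0 < (N : ℝ) ^ 2 := by positivity
  linarith

end

end Pool.Agent.H895R3.NU
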