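import Pool.Agent.H895R3.NU.F3
import Pool.Agent.H895R3.NK.E7

set_option autoImplicit false
set_option maxHeartbeats 4000000

/-! # The upper bound for `n_k` -/

namespace Pool.Agent.H895R3.NU

open Finset

lemma theta_close (δ : ℝ) (hδ : 0 < δ) : ∃ N₀ : ℕ, ∀ N : ℕ, N₀ ≤ N →
    |Chebyshev.theta (N : ℝ) - N| ≤ δ * N := by
  obtain ⟨C, hC, hth⟩ := Pool.Agent.H442R2.EHI.PntErrAux.thetaU 1
  refine ⟨⌈Real.exp (C / δ)⌉₊ + 2, fun N hN => ?_⟩
  have h1 := hth N (by omega)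
  refine h1.trans ?_
  have hN2 : (2 : ℝ) ≤ N := by exact_mod_cast (by omega : 2 ≤ N)
  have hlog : C / δ ≤ Real.log N := by
    rw [Real.le_log_iff_exp_le (by linarith)]
    have := Nat.le_ceil (Real.exp (C / δ))
    have h2 : ((⌈Real.exp (C / δ)⌉₊ : ℕ) : ℝ) ≤ N := by exact_mod_cast (by omega)
    linarith
  have hpos : 0 < Real.log N := lt_of_lt_of_le (by positivity) hlog
  rw [pow_one, ← mul_div_assoc, div_le_iff₀ hpos]
  have h3 : C ≤ δ * Real.log N := by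
    rw [div_le_iff₀ hδ] at hlog
    linarith
  nlinarith

/-- the parameter inequality -/
lemma param : ∃ η : ℝ, 0 < η ∧ η ≤ 1 ∧ ∃ y : ℝ, 1 ≤ y ∧ ∃ K₀ : ℕ, ∀ D k : ℕ, K₀ ≤ D + k →
    (k : ℝ) ≤ η * (D + k : ℕ) →
    2 * (b0 ^ 2) ^ D * (12 * y) ^ k * (1 + 1 / y) ^ (D + k) ≤ 1 / 4 := by
  have hb1 := b0_lt
  have hb2 := b0_ge
  have hb0 : 0 < b0 := by linarith
  set y : ℝ := b0 / (1 - b0) with hy
  have h1b : 0 < 1 - b0 := by linarith
  have hy1 : 1 ≤ y := by rw [hy, one_le_div h1b]; linarith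
  have hy0 : 0 < y := by linarith
  have hyy : 1 + 1 / y = 1 / b0 := by
    rw [hy]
    field_simp
    ring
  set W : ℝ := 12 * y / b0 ^ 2 with hW
  have hW1 : 1 < W := by
    rw [hW, one_lt_div (by positivity)]
    nlinarith
  have hlW : 0 < Real.log W := Real.log_pos hW1
  set ℓ : ℝ := Real.log (1 / b0) with hℓ
  have hℓ0 : 0 < ℓ := Real.log_pos (by rw [one_lt_div hb0]; exact hb1)
  set η : ℝ := min 1 (ℓ / (2 * Real.log W)) with hη
  have hη0 : 0 < η := lt_min one_pos (by positivity)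
  refine ⟨η, hη0, min_le_left _ _, y, hy1, ⌈(2 * Real.log 8) / ℓ⌉₊, fun D k hK hk => ?_⟩
  have hK' : (2 * Real.log 8) / ℓ ≤ ((D + k : ℕ) : ℝ) := (Nat.le_ceil _).trans (by exact_mod_cast hK)
  rw [div_le_iff₀ hℓ0] at hK'
  rw [hyy]
  have e1 : 2 * (b0 ^ 2) ^ D * (12 * y) ^ k * (1 / b0) ^ (D + k) = 2 * b0 ^ (D + k) * W ^ k := by
    have hb0' := hb0.ne'
    have hWk : (12 * y) ^ k = W ^ k * (b0 ^ k * b0 ^ k) := by
      rw [← mul_pow, ← mul_pow, hW]
      congr 1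
      field_simp
    have hB : (1 / b0) ^ (D + k) * (b0 ^ D * b0 ^ k) = 1 := by
      rw [← pow_add, ← mul_pow, one_div, inv_mul_cancel₀ hb0', one_pow]
    have hD : (b0 ^ 2) ^ D = b0 ^ D * b0 ^ D := by
      rw [← mul_pow, sq]
    rw [hWk, hD, pow_add b0 D k]
    calc 2 * (b0 ^ D * b0 ^ D) * (W ^ k * (b0 ^ k * b0 ^ k)) * (1 / b0) ^ (D + k)
        = 2 * (b0 ^ D * b0 ^ k) * W ^ k * ((1 / b0) ^ (D + k) * (b0 ^ D * b0 ^ k)) := by ring
      _ = 2 * (b0 ^ D * b0 ^ k) * W ^ k := by rw [hB, mul_one]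
  rw [e1]
  have e2 : b0 ^ (D + k) = Real.exp (-(ℓ * ((D + k : ℕ) : ℝ))) := by
    have : Real.exp (-ℓ) = b0 := by
      rw [hℓ, one_div, Real.log_inv, neg_neg, Real.exp_log hb0]
    rw [← this, ← Real.exp_nat_mul]
    congr 1
    ring
  have e3 : W ^ k ≤ Real.exp (ℓ / 2 * ((D + k : ℕ) : ℝ)) := by
    have h1 : W ^ k = Real.exp (k * Real.log W) := by
      rw [Real.exp_nat_mul, Real.exp_log (by linarith)]
    rw [h1]
    apply Real.exp_le_exp.mpr
    have h2 : η * Real.log W ≤ ℓ / 2 := by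
      have : η ≤ ℓ / (2 * Real.log W) := min_le_right _ _
      calc η * Real.log W ≤ ℓ / (2 * Real.log W) * Real.log W := by gcongr
        _ = ℓ / 2 := by field_simp
    have h3 : (0 : ℝ) ≤ ((D + k : ℕ) : ℝ) := by positivity
    calc (k : ℝ) * Real.log W ≤ (η * ((D + k : ℕ) : ℝ)) * Real.log W := by gcongr
      _ = (η * Real.log W) * ((D + k : ℕ) : ℝ) := by ring
      _ ≤ ℓ / 2 * ((D + k : ℕ) : ℝ) := by gcongr
  rw [e2]
  have e4 : 2 * Real.exp (-(ℓ * ((D + k : ℕ) : ℝ))) * W ^ k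
      ≤ 2 * (Real.exp (-(ℓ * ((D + k : ℕ) : ℝ))) * Real.exp (ℓ / 2 * ((D + k : ℕ) : ℝ))) := by
    have := Real.exp_pos (-(ℓ * ((D + k : ℕ) : ℝ)))
    nlinarith [mul_le_mul_of_nonneg_left e3 this.le]
  refine e4.trans ?_
  rw [← Real.exp_add]
  have e5 : -(ℓ * ((D + k : ℕ) : ℝ)) + ℓ / 2 * ((D + k : ℕ) : ℝ) ≤ -Real.log 8 := by linarith
  have e6 := Real.exp_le_exp.mpr e5
  rw [Real.exp_neg, Real.exp_log (by norm_num)] at e6
  linarith

/-- primes in the upper half -/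
def LL (k : ℕ) : Finset ℕ := (Ioc (3 * k / 2) (2 * k)).filter Nat.Prime

/-- product of the primes in the lower half -/
def EE (k : ℕ) : ℕ := ∏ p ∈ (Ioc k (3 * k / 2)).filter Nat.Prime, p

lemma mem_LL {k p : ℕ} (hk : 2 ≤ k) (hp : p ∈ LL k) : p.Prime ∧ 3 * k / 2 < p ∧ p < 2 * k := by
  unfold LL at hp
  rw [mem_filter, mem_Ioc] at hp
  refine ⟨hp.2, hp.1.1, ?_⟩
  rcases Nat.lt_or_ge p (2 * k) with h | h
  · exact h
  · exfalso
    have : p = 2 * k := by omega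
    have h2 := hp.2
    rw [this] at h2
    exact Nat.not_prime_mul (by norm_num) (by omega) h2

/-- the construction -/
theorem construct (k D k' : ℕ) (hk : 12 ≤ k) (hcard : (LL k).card = D + k') (y : ℝ) (hy : 1 ≤ y)
    (hpar : 2 * (b0 ^ 2) ^ D * (12 * y) ^ k' * (1 + 1 / y) ^ (D + k') ≤ 1 / 4)
    (hne : ((Ioc k (3 * k / 2)).filter Nat.Prime).Nonempty) :
    ∃ n : ℕ, 2 * k ≤ n ∧ n ≤ 8 * 2 ^ (D + k') * (2 * k) ^ D * EE k ∧
      ∀ p : ℕ, p.Prime → k < p → p < 2 * k → ∀ i ∈ Icc 1 k, ¬ p ∣ n - i := by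
  have hE0 : 0 < EE k := prod_pos fun p hp => (mem_filter.1 hp).2.pos
  obtain ⟨a, ha, c, hc, h⟩ := exists_pair (ι := {p // p ∈ LL k}) (fun p => (p : ℕ))
    (fun p => ((p : ℕ) - k) / 4) (EE k) (4 * 2 ^ (D + k') * (2 * k) ^ D) D k' (2 * k)
    (fun p => (mem_LL (by omega) p.2).1) Subtype.coe_injective
    (fun p => by
      obtain ⟨hp, h1, h2⟩ := mem_LL (by omega) p.2
      intro hd
      unfold EE at hd
      rw [Prime.dvd_finsetProd_iff hp.prime] at hd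
      obtain ⟨q, hq, hdq⟩ := hd
      rw [mem_filter, mem_Ioc] at hq
      have := Nat.le_of_dvd hq.2.pos hdq
      omega)
    (fun p => by
      obtain ⟨hp, h1, h2⟩ := mem_LL (by omega) p.2
      omega)
    (fun p => by
      obtain ⟨hp, h1, h2⟩ := mem_LL (by omega) p.2
      have h3 : 3 * k < 2 * (p : ℕ) := by omega
      omega)
    (fun p => by
      obtain ⟨hp, h1, h2⟩ := mem_LL (by omega) p.2
      omega)
    (fun p => by
      obtain ⟨hp, h1, h2⟩ := mem_LL (by omega) p.2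
      exact h2.le)
    (by rw [Fintype.card_coe]; exact hcard) y hy (by positivity) le_rfl hpar
  rw [mem_Icc] at ha hc
  set n := (a + c) * EE k with hn
  have hE : k < EE k := by
    obtain ⟨q, hq⟩ := hne
    have h1 : q ∣ EE k := dvd_prod_of_mem (fun p => p) hq
    have h2 := Nat.le_of_dvd hE0 h1
    rw [mem_filter, mem_Ioc] at hq
    omega
  have hn2 : 2 * k ≤ n := by
    rw [hn]
    have : 2 ≤ a + c := by omega
    nlinarith
  refine ⟨n, hn2, ?_, ?_⟩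
  · rw [hn]
    have : a + c ≤ 8 * 2 ^ (D + k') * (2 * k) ^ D := by
      calc a + c ≤ 2 * (4 * 2 ^ (D + k') * (2 * k) ^ D) := by omega
        _ = _ := by ring
    exact Nat.mul_le_mul_right _ this
  · intro p hp h1 h2 i hi hd
    rw [mem_Icc] at hi
    by_cases hc3 : p ≤ 3 * k / 2
    · have h3 : p ∣ n := by
        rw [hn]
        apply Dvd.dvd.mul_left
        exact dvd_prod_of_mem (fun p => p) (by rw [mem_filter, mem_Ioc]; exact ⟨⟨h1, hc3⟩, hp⟩)
      have h4 : p ∣ i := (Nat.dvd_sub_iff_right (by omega) h3).1 hd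
      have := Nat.le_of_dvd (by omega) h4
      omega
    · have hpL : p ∈ LL k := by
        unfold LL
        rw [mem_filter, mem_Ioc]
        exact ⟨⟨by omega, h2.le⟩, hp⟩
      obtain ⟨s, hs1, hs2⟩ := h ⟨p, hpL⟩
      simp only at hs1 hs2
      have h3 : p ∣ (n + s) - (n - i) := Nat.dvd_sub hs2 hd
      have h4 : (n + s) - (n - i) = s + i := by omega
      rw [h4] at h3
      have := Nat.le_of_dvd (by omega) h3
      omega

end Pool.Agent.H895R3.NU
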