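import Pool.Agent.H895R3.NU.F4

set_option autoImplicit false
set_option maxHeartbeats 4000000

/-! # The upper bound for `n_k`: asymptotics -/

namespace Pool.Agent.H895R3.NU

open Finset

lemma log_small (A ε : ℝ) (hε : 0 < ε) : ∃ k₁ : ℕ, ∀ k : ℕ, k₁ ≤ k →
    A * Real.log (2 * k) ≤ ε * k := by
  have h1 : (fun x : ℝ => A * Real.log x) =o[Filter.atTop] fun x : ℝ => x :=
    Real.isLittleO_log_id_atTop.const_mul_left A
  have h2 := h1.bound (show (0 : ℝ) < ε / 2 by positivity)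
  rw [Filter.eventually_atTop] at h2
  obtain ⟨x₀, h⟩ := h2
  refine ⟨⌈x₀⌉₊, fun k hk => ?_⟩
  have hk' : x₀ ≤ (k : ℝ) := (Nat.le_ceil _).trans (by exact_mod_cast hk)
  have hk0 : (0 : ℝ) ≤ k := by positivity
  have h3 := h (2 * (k : ℝ)) (by linarith)
  rw [Real.norm_eq_abs, Real.norm_eq_abs] at h3
  have h4 := le_abs_self (A * Real.log (2 * k))
  rw [abs_of_nonneg (by positivity : (0 : ℝ) ≤ 2 * (k : ℝ))] at h3
  linarith

/-- **the upper bound** -/
theorem upper_bound : ∃ c : ℝ, 0 < c ∧ ∃ k₀ : ℕ, ∀ k : ℕ, k₀ ≤ k →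
    ∃ n : ℕ, 2 * k ≤ n ∧ (n : ℝ) ≤ Real.exp ((1 - c) * k) ∧
      ∀ p : ℕ, p.Prime → k < p → p < 2 * k → ∀ i ∈ Icc 1 k, ¬ p ∣ n - i := by
  obtain ⟨η, hη0, hη1, y, hy, K₀, hpar⟩ := param
  set δ : ℝ := η / 40 with hδ
  have hδ0 : 0 < δ := by positivity
  have hδ1 : δ ≤ 1 / 40 := by linarith
  obtain ⟨N₀, hth⟩ := theta_close δ hδ0
  obtain ⟨k₁, hk₁⟩ := log_small 1 δ hδ0
  obtain ⟨k₂, hk₂⟩ := log_small K₀ (1 / 4) (by norm_num)
  refine ⟨η / 4, by positivity, N₀ + 12 + k₁ + k₂ + ⌈Real.exp (1 / δ)⌉₊ + ⌈4 / δ⌉₊, fun k hk => ?_⟩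
  have hk12 : 12 ≤ k := by omega
  have hkr : (12 : ℝ) ≤ k := by exact_mod_cast hk12
  have hexp : Real.exp (1 / δ) ≤ k :=
    (Nat.le_ceil _).trans (by exact_mod_cast (by omega : ⌈Real.exp (1 / δ)⌉₊ ≤ k))
  have h4δ : 4 ≤ δ * k := by
    have : 4 / δ ≤ k := (Nat.le_ceil _).trans (by exact_mod_cast (by omega : ⌈4 / δ⌉₊ ≤ k))
    rw [div_le_iff₀ hδ0] at this
    linarith
  have hlogk1 : Real.log (2 * k) ≤ δ * k := by
    have := hk₁ k (by omega)
    linarith
  have hlogk2 := hk₂ k (by omega)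
  set h : ℕ := 3 * k / 2 with hh
  have hhr1 : (h : ℝ) ≤ 3 / 2 * k := by
    have : 2 * h ≤ 3 * k := by omega
    have : (2 : ℝ) * h ≤ 3 * k := by exact_mod_cast this
    linarith
  have hhr2 : 3 / 2 * (k : ℝ) - 1 / 2 ≤ h := by
    have : 3 * k ≤ 2 * h + 1 := by omega
    have : (3 : ℝ) * k ≤ 2 * h + 1 := by exact_mod_cast this
    linarith
  have hhk : (k : ℝ) ≤ h := by linarith
  -- theta values
  have t1 := abs_le.1 (hth k (by omega))
  have t2 := abs_le.1 (hth h (by omega))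
  have t3 := abs_le.1 (hth (2 * k) (by omega))
  have s1 := Pool.Agent.H895R3.NK.theta_sub k h (by omega)
  have s2 := Pool.Agent.H895R3.NK.theta_sub h (2 * k) (by omega)
  push_cast at t3 s2
  set T0 := Chebyshev.theta (k : ℝ) with hT0
  set T1 := Chebyshev.theta (h : ℝ) with hT1
  set T2 := Chebyshev.theta (2 * (k : ℝ)) with hT2
  have hδh : δ * h ≤ 3 / 2 * (δ * k) := by nlinarith
  have u1 : T1 - T0 ≤ k / 2 + 5 / 2 * (δ * k) := by linarith [t1.1, t2.2]
  have u2 : k / 2 - 1 / 2 - 5 / 2 * (δ * k) ≤ T1 - T0 := by linarith [t1.2, t2.1]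
  have u3 : T2 - T1 ≤ k / 2 + 1 / 2 + 7 / 2 * (δ * k) := by linarith [t3.2, t2.1]
  have u4 : k / 2 - 7 / 2 * (δ * k) ≤ T2 - T1 := by linarith [t3.1, t2.2]
  have hδk : δ * k ≤ k / 40 := by nlinarith
  -- the product of the lower half
  have hEE : Real.log (EE k) = T1 - T0 := by
    rw [s1]
    unfold EE
    push_cast
    rw [Real.log_prod]
    intro p hp
    have := (mem_filter.1 hp).2.pos
    positivity
  have hne : ((Ioc k (3 * k / 2)).filter Nat.Prime).Nonempty := by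
    rw [nonempty_iff_ne_empty]
    intro he
    rw [← hh] at he
    rw [he, sum_empty] at s1
    linarith
  -- the upper half
  set K := (LL k).card with hK
  have hLL : LL k = (Ioc h (2 * k)).filter Nat.Prime := rfl
  have hKlow : (K : ℝ) * Real.log h ≤ T2 - T1 := by
    rw [s2, ← hLL, hK, ← nsmul_eq_mul]
    apply card_nsmul_le_sum
    intro p hp
    obtain ⟨hp1, hp2, hp3⟩ := mem_LL (by omega) hp
    apply Real.log_le_log
    · linarith
    · exact_mod_cast hp2.le
  have hKup : T2 - T1 ≤ (K : ℝ) * Real.log (2 * k) := by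
    rw [s2, ← hLL, hK, ← nsmul_eq_mul]
    apply sum_le_card_nsmul
    intro p hp
    obtain ⟨hp1, hp2, hp3⟩ := mem_LL (by omega) hp
    apply Real.log_le_log
    · exact_mod_cast hp1.pos
    · exact_mod_cast hp3.le
  have hlogpos : 0 < Real.log (2 * k) := Real.log_pos (by linarith)
  have hKK : K₀ ≤ K := by
    have h1 : (K₀ : ℝ) * Real.log (2 * k) ≤ K * Real.log (2 * k) := by linarith
    have h2 := le_of_mul_le_mul_right h1 hlogpos
    exact_mod_cast h2
  have hlogh : 1 / δ ≤ Real.log h := by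
    rw [Real.le_log_iff_exp_le (by linarith)]
    linarith
  have hK0 : (0 : ℝ) ≤ K := by positivity
  have hKδ : (K : ℝ) ≤ δ * k := by
    have h1 : (K : ℝ) * (1 / δ) ≤ K * Real.log h := mul_le_mul_of_nonneg_left hlogh hK0
    have h2 : (K : ℝ) * (1 / δ) ≤ k := by linarith
    rw [mul_one_div, div_le_iff₀ hδ0] at h2
    linarith
  have hlog2 : Real.log 2 ≤ 1 := by
    have := Real.log_two_lt_d9
    linarith
  have hlog2' : 0 < Real.log 2 := Real.log_pos (by norm_num)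
  have hlog8 : Real.log 8 ≤ 3 := by
    have : (8 : ℝ) = 2 ^ 3 := by norm_num
    rw [this, Real.log_pow]
    push_cast
    linarith
  have hlogh2 : Real.log (2 * k) ≤ Real.log h + Real.log 2 := by
    rw [← Real.log_mul (by linarith) (by norm_num)]
    apply Real.log_le_log (by linarith)
    linarith
  have hKlog : (K : ℝ) * Real.log (2 * k) ≤ k / 2 + 1 / 2 + 9 / 2 * (δ * k) := by
    have h1 : (K : ℝ) * Real.log (2 * k) ≤ K * Real.log h + K * Real.log 2 := by
      rw [← mul_add]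
      exact mul_le_mul_of_nonneg_left hlogh2 hK0
    have h2 : (K : ℝ) * Real.log 2 ≤ K * 1 := mul_le_mul_of_nonneg_left hlog2 hK0
    linarith
  -- the choice of k'
  set k' : ℕ := ⌊η * K⌋₊ with hk'
  have hk'1 : (k' : ℝ) ≤ η * K := Nat.floor_le (by positivity)
  have hk'2 : η * K < k' + 1 := Nat.lt_floor_add_one _
  have hk'K : k' ≤ K := by
    have : (k' : ℝ) ≤ K := hk'1.trans (by nlinarith)
    exact_mod_cast this
  set D : ℕ := K - k' with hD
  have hDk : K = D + k' := by omega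
  have hDr : (D : ℝ) ≤ (1 - η) * K + 1 := by
    have : (K : ℝ) = D + k' := by exact_mod_cast hDk
    linarith
  have hp := hpar D k' (by omega) (by rw [← hDk]; exact hk'1)
  obtain ⟨n, hn1, hn2, hn3⟩ := construct k D k' hk12 hDk y hy hp hne
  refine ⟨n, hn1, ?_, hn3⟩
  have hE0 : 0 < EE k := prod_pos fun p hp => (mem_filter.1 hp).2.pos
  have hn0 : (0 : ℝ) < n := by exact_mod_cast (by omega : 0 < n)
  rw [← Real.log_le_iff_le_exp hn0]
  have hB : (n : ℝ) ≤ 8 * 2 ^ K * (2 * k) ^ D * EE k := by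
    rw [hDk]
    exact_mod_cast hn2
  have hEr : (0 : ℝ) < EE k := by exact_mod_cast hE0
  have hlogn : Real.log n ≤ Real.log 8 + K * Real.log 2 + D * Real.log (2 * k) + Real.log (EE k) := by
    have h1 := Real.log_le_log hn0 hB
    rw [Real.log_mul (by positivity) (by positivity), Real.log_mul (by positivity) (by positivity),
      Real.log_mul (by positivity) (by positivity), Real.log_pow, Real.log_pow] at h1
    exact h1
  have hDlog : (D : ℝ) * Real.log (2 * k) ≤ (1 - η) * (K * Real.log (2 * k)) + Real.log (2 * k) := by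
    calc (D : ℝ) * Real.log (2 * k) ≤ ((1 - η) * K + 1) * Real.log (2 * k) := by gcongr
      _ = _ := by ring
  have h1η : 0 ≤ 1 - η := by linarith
  have h5 : (1 - η) * (K * Real.log (2 * k)) ≤ (1 - η) * (k / 2) + 1 / 2 + 9 / 2 * (δ * k) := by
    calc (1 - η) * (K * Real.log (2 * k)) ≤ (1 - η) * (k / 2 + 1 / 2 + 9 / 2 * (δ * k)) :=
          mul_le_mul_of_nonneg_left hKlog h1η
      _ = (1 - η) * (k / 2) + (1 - η) * (1 / 2 + 9 / 2 * (δ * k)) := by ring
      _ ≤ (1 - η) * (k / 2) + 1 * (1 / 2 + 9 / 2 * (δ * k)) := by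
          have : 0 ≤ 1 / 2 + 9 / 2 * (δ * k) := by positivity
          have h6 : 1 - η ≤ 1 := by linarith
          nlinarith [mul_le_mul_of_nonneg_right h6 this]
      _ = _ := by ring
  have h6 : (K : ℝ) * Real.log 2 ≤ K * 1 := mul_le_mul_of_nonneg_left hlog2 hK0
  have h7 : η * k = 40 * (δ * k) := by rw [hδ]; ring
  have h8 : (1 - η) * ((k : ℝ) / 2) = k / 2 - 20 * (δ * k) := by
    rw [hδ]; ring
  have h9 : (1 - η / 4) * (k : ℝ) = k - 10 * (δ * k) := by
    rw [hδ]; ring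
  rw [h9]
  linarith

end Pool.Agent.H895R3.NU
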