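import Pool.Agent.H895R3.NU.F5

set_option autoImplicit false
set_option maxHeartbeats 4000000

/-! # Near periods, and the upper bound away from `k` -/

namespace Pool.Agent.H895R3.NU

open Finset

/-- Dirichlet: a common near period of the moduli `p ∈ P` -/
lemma near_period (P : Finset ℕ) (hP : ∀ p ∈ P, 0 < p) (Q M : ℕ) (hQ : 0 < Q) :
    ∃ m : ℕ, 0 < m ∧ m ≤ Q ^ P.card ∧ ∀ p ∈ P, ∃ q : ℤ, ∃ r : ℤ, ((M * m : ℕ) : ℤ) = p * q + r ∧
      Q * |r| ≤ p := by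
  classical
  have hmaps : ∀ a ∈ range (Q ^ P.card + 1),
      (fun p : P => (⟨Q * ((M * a) % (p : ℕ)) / p, by
        rw [Nat.div_lt_iff_lt_mul (hP p p.2)]
        exact Nat.mul_lt_mul_of_pos_left (Nat.mod_lt _ (hP p p.2)) hQ⟩ : Fin Q)) ∈
        (univ : Finset (P → Fin Q)) := fun a _ => mem_univ _
  have hcard : (univ : Finset (P → Fin Q)).card < (range (Q ^ P.card + 1)).card := by
    rw [card_range, card_univ, Fintype.card_fun, Fintype.card_fin, Fintype.card_coe]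
    omega
  obtain ⟨a, ha, b, hb, hab, heq⟩ := exists_ne_map_eq_of_card_lt_of_maps_to hcard hmaps
  wlog hlt : a < b generalizing a b
  · exact this b hb a ha hab.symm heq.symm (by omega)
  rw [mem_range] at ha hb
  refine ⟨b - a, by omega, by omega, fun p hp => ?_⟩
  have h1 := congrFun heq ⟨p, hp⟩
  simp only [Fin.mk.injEq] at h1
  have hp0 := hP p hp
  refine ⟨((M * b / p : ℕ) : ℤ) - ((M * a / p : ℕ) : ℤ),
    ((M * b % p : ℕ) : ℤ) - ((M * a % p : ℕ) : ℤ), ?_, ?_⟩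
  · have e1 := Nat.div_add_mod (M * b) p
    have e2 := Nat.div_add_mod (M * a) p
    have e3 : M * (b - a) + M * a = M * b := by rw [← mul_add]; congr 1; omega
    zify at e1 e2 e3
    push_cast
    linarith
  · set x := M * b % p
    set y := M * a % p
    have l1 := Nat.div_mul_le_self (Q * x) p
    have l2 := Nat.lt_div_mul_add hp0 (a := Q * x)
    have l3 := Nat.div_mul_le_self (Q * y) p
    have l4 := Nat.lt_div_mul_add hp0 (a := Q * y)
    rw [← h1] at l1 l2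
    rw [show (Q : ℤ) * |(x : ℤ) - y| = |(Q : ℤ) * x - Q * y| by
      rw [← mul_sub, abs_mul, Nat.abs_cast]]
    rw [abs_le]
    zify at l1 l2 l3 l4
    constructor <;> linarith

/-- the explicit bound -/
theorem away_explicit (k w : ℕ) (hw4 : 4 ≤ w) (hwk : w ≤ k) :
    ∃ n : ℕ, 2 * k ≤ n ∧ n ≤ 4 * k * (8 * k / w + 1) ^ ((Ioc k (2 * k)).filter Nat.Prime).card ∧
      ∀ p : ℕ, p.Prime → k + w < p → p < 2 * k → ∀ i ∈ Icc 1 k, ¬ p ∣ n - i := by
  set P := (Ioo (k + w) (2 * k)).filter Nat.Prime with hP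
  set Q := 8 * k / w + 1 with hQ
  have hQw : 8 * k ≤ Q * w := by
    have := Nat.lt_div_mul_add (a := 8 * k) (b := w) (by omega)
    rw [hQ, add_mul, one_mul]
    omega
  have hQ0 : 0 < Q := Nat.succ_pos _
  obtain ⟨m, hm0, hmQ, hm⟩ := near_period P (fun p hp => (mem_filter.1 hp).2.pos) Q (4 * k) hQ0
  have hPc : P.card ≤ ((Ioc k (2 * k)).filter Nat.Prime).card := by
    apply card_le_card
    intro p hp
    rw [hP, mem_filter, mem_Ioo] at hp
    rw [mem_filter, mem_Ioc]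
    exact ⟨⟨by omega, by omega⟩, hp.2⟩
  have hkm : 4 * k ≤ 4 * k * m := Nat.le_mul_of_pos_right _ hm0
  refine ⟨4 * k * m - w / 2, by omega, ?_, ?_⟩
  · have h1 : 4 * k * m ≤ 4 * k * Q ^ ((Ioc k (2 * k)).filter Nat.Prime).card := by
      apply Nat.mul_le_mul_left
      exact hmQ.trans (Nat.pow_le_pow_right hQ0 hPc)
    omega
  · intro p hp h1 h2 i hi hd
    rw [mem_Icc] at hi
    obtain ⟨q, r, e1, e2⟩ := hm p (by rw [hP, mem_filter, mem_Ioo]; exact ⟨⟨h1, h2⟩, hp⟩)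
    have hr : 4 * |r| < w := by
      by_contra hcon
      push Not at hcon
      have h3 : (Q : ℤ) * w ≤ Q * (4 * |r|) := mul_le_mul_of_nonneg_left hcon (by positivity)
      have h4 : (8 * k : ℤ) ≤ Q * w := by exact_mod_cast hQw
      have h5 : (p : ℤ) < 2 * k := by exact_mod_cast h2
      nlinarith
    have hd' : (p : ℤ) ∣ ((4 * k * m - w / 2 - i : ℕ) : ℤ) := by exact_mod_cast hd
    have e3 : ((4 * k * m - w / 2 - i : ℕ) : ℤ) = p * q + (r - (w / 2 : ℕ) - i) := by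
      have : ((4 * k * m - w / 2 - i : ℕ) : ℤ) = ((4 * k * m : ℕ) : ℤ) - (w / 2 : ℕ) - i := by
        omega
      rw [this, e1]
      ring
    rw [e3] at hd'
    have h6 : (p : ℤ) ∣ r - (w / 2 : ℕ) - i := (Int.dvd_add_right (Dvd.intro _ rfl)).1 hd'
    have h7 : (p : ℤ) ∣ -(r - (w / 2 : ℕ) - i) := (Int.dvd_neg).2 h6
    have h8 := abs_le.1 (le_refl |r|)
    have h9 : 0 < -(r - ((w / 2 : ℕ) : ℤ) - i) := by omega
    have h10 := Int.le_of_dvd h9 h7
    omega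

/-- the asymptotic form -/
theorem away_asymp (θ ε : ℝ) (hθ0 : 0 < θ) (hθ1 : θ < 1) (hθε : θ < ε) :
    ∃ k₀ : ℕ, ∀ k : ℕ, k₀ ≤ k → ∃ n : ℕ, 2 * k ≤ n ∧ (n : ℝ) ≤ Real.exp (ε * k) ∧
      ∀ p : ℕ, p.Prime → (k : ℝ) + (k : ℝ) ^ (1 - θ) < p → p < 2 * k →
        ∀ i ∈ Icc 1 k, ¬ p ∣ n - i := by
  set δ : ℝ := (ε - θ) / 12 with hδ
  have hδ0 : 0 < δ := by rw [hδ]; linarith
  obtain ⟨N₀, hth⟩ := theta_close δ hδ0
  obtain ⟨k₁, hk₁⟩ := log_small 2 δ hδ0
  have h1θ : 0 < 1 - θ := by linarith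
  refine ⟨N₀ + 12 + k₁ + ⌈Real.exp ((1 + 3 * δ) / δ)⌉₊ + ⌈(4 : ℝ) ^ (1 / (1 - θ))⌉₊,
    fun k hk => ?_⟩
  have hk12 : 12 ≤ k := by omega
  have hkr : (12 : ℝ) ≤ k := by exact_mod_cast hk12
  have hk0 : (0 : ℝ) < k := by linarith
  have hexp : Real.exp ((1 + 3 * δ) / δ) ≤ k :=
    (Nat.le_ceil _).trans (by exact_mod_cast (by omega : ⌈Real.exp ((1 + 3 * δ) / δ)⌉₊ ≤ k))
  have hroot : (4 : ℝ) ^ (1 / (1 - θ)) ≤ k :=
    (Nat.le_ceil _).trans (by exact_mod_cast (by omega : ⌈(4 : ℝ) ^ (1 / (1 - θ))⌉₊ ≤ k))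
  have hw4 : (4 : ℝ) ≤ (k : ℝ) ^ (1 - θ) := by
    have h1 := Real.rpow_le_rpow (by positivity) hroot h1θ.le
    rwa [← Real.rpow_mul (by norm_num), one_div, inv_mul_cancel₀ h1θ.ne', Real.rpow_one] at h1
  set w : ℕ := ⌊(k : ℝ) ^ (1 - θ)⌋₊ with hw
  have hw1 : (w : ℝ) ≤ (k : ℝ) ^ (1 - θ) := Nat.floor_le (by positivity)
  have hw2 : (k : ℝ) ^ (1 - θ) < w + 1 := Nat.lt_floor_add_one _
  have hw4' : 4 ≤ w := Nat.le_floor (by exact_mod_cast hw4)
  have hwk : w ≤ k := by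
    have h1 : (k : ℝ) ^ (1 - θ) ≤ (k : ℝ) ^ (1 : ℝ) :=
      Real.rpow_le_rpow_of_exponent_le (by linarith) (by linarith)
    rw [Real.rpow_one] at h1
    exact_mod_cast hw1.trans h1
  obtain ⟨n, hn1, hn2, hn3⟩ := away_explicit k w hw4' hwk
  refine ⟨n, hn1, ?_, fun p hp h1 h2 i hi => hn3 p hp ?_ h2 i hi⟩
  swap
  · have : ((k + w : ℕ) : ℝ) < p := by push_cast; linarith
    exact_mod_cast this
  set K := ((Ioc k (2 * k)).filter Nat.Prime).card with hK
  have t1 := abs_le.1 (hth k (by omega))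
  have t3 := abs_le.1 (hth (2 * k) (by omega))
  have s1 := Pool.Agent.H895R3.NK.theta_sub k (2 * k) (by omega)
  push_cast at t3 s1
  have hlogk : (1 + 3 * δ) / δ ≤ Real.log k := by
    rw [Real.le_log_iff_exp_le hk0]
    exact hexp
  have hKlog : (K : ℝ) * Real.log k ≤ (1 + 3 * δ) * k := by
    have h1 : (K : ℝ) * Real.log k ≤ Chebyshev.theta (2 * (k : ℝ)) - Chebyshev.theta (k : ℝ) := by
      rw [s1, hK, ← nsmul_eq_mul]
      apply card_nsmul_le_sum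
      intro p hp
      rw [mem_filter, mem_Ioc] at hp
      apply Real.log_le_log hk0
      exact_mod_cast hp.1.1.le
    linarith [t1.1, t3.2]
  have hK0 : (0 : ℝ) ≤ K := by positivity
  have h3δ : 0 < 1 + 3 * δ := by linarith
  have hKδ : (K : ℝ) ≤ δ * k := by
    have h1 : (K : ℝ) * ((1 + 3 * δ) / δ) ≤ (1 + 3 * δ) * k :=
      (mul_le_mul_of_nonneg_left hlogk hK0).trans hKlog
    have h2 : (K : ℝ) * ((1 + 3 * δ) / δ) = (1 + 3 * δ) * (K / δ) := by ring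
    rw [h2] at h1
    have h3 := le_of_mul_le_mul_left h1 h3δ
    rw [div_le_iff₀ hδ0] at h3
    linarith
  have hlog4 : Real.log (4 * k) ≤ δ * k := by
    have h1 := hk₁ k (by omega)
    have h2 : Real.log (4 * k) = Real.log 2 + Real.log (2 * k) := by
      rw [← Real.log_mul (by norm_num) (by positivity)]
      congr 1
      ring
    have h3 : Real.log 2 ≤ Real.log (2 * k) := Real.log_le_log (by norm_num) (by linarith)
    linarith
  have hQ : ((8 * k / w + 1 : ℕ) : ℝ) ≤ 17 * (k : ℝ) ^ θ := by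
    have hwr : (4 : ℝ) ≤ w := by exact_mod_cast hw4'
    have h1 : ((8 * k / w : ℕ) : ℝ) ≤ (8 * k : ℕ) / (w : ℝ) := Nat.cast_div_le
    have h2 : (k : ℝ) = (k : ℝ) ^ (1 - θ) * (k : ℝ) ^ θ := by
      rw [← Real.rpow_add hk0]
      simp
    have h3 : (k : ℝ) ^ (1 - θ) ≤ 2 * w := by linarith
    have h4 : 1 ≤ (k : ℝ) ^ θ := Real.one_le_rpow (by linarith) hθ0.le
    have h5 : ((8 * k : ℕ) : ℝ) / (w : ℝ) ≤ 16 * (k : ℝ) ^ θ := by
      rw [div_le_iff₀ (by linarith)]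
      push_cast
      calc 8 * (k : ℝ) = 8 * ((k : ℝ) ^ (1 - θ) * (k : ℝ) ^ θ) := by rw [← h2]
        _ ≤ 8 * ((2 * w) * (k : ℝ) ^ θ) := by gcongr
        _ = 16 * (k : ℝ) ^ θ * w := by ring
    push_cast at h1 h5 ⊢
    linarith
  have hkθ : 0 < (k : ℝ) ^ θ := by positivity
  have hlogQ : Real.log ((8 * k / w + 1 : ℕ) : ℝ) ≤ 3 + θ * Real.log k := by
    have h1 := Real.log_le_log (by positivity) hQ
    rw [Real.log_mul (by norm_num) hkθ.ne', Real.log_rpow hk0] at h1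
    have h2 : Real.log 17 ≤ 3 := by
      have h3 : Real.log 17 ≤ Real.log (2.7182818283 ^ 3) := Real.log_le_log (by norm_num) (by norm_num)
      rw [Real.log_pow] at h3
      have h4 : Real.log 2.7182818283 ≤ 1 := by
        rw [Real.log_le_iff_le_exp (by norm_num)]
        exact Real.exp_one_gt_d9.le
      push_cast at h3
      linarith
    linarith
  have hn0 : (0 : ℝ) < n := by exact_mod_cast (by omega : 0 < n)
  rw [← Real.log_le_iff_le_exp hn0]
  have hB : (n : ℝ) ≤ 4 * k * ((8 * k / w + 1 : ℕ) : ℝ) ^ K := by exact_mod_cast hn2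
  have h1 := Real.log_le_log hn0 hB
  rw [Real.log_mul (by positivity) (by positivity), Real.log_pow] at h1
  have h2 : (K : ℝ) * Real.log ((8 * k / w + 1 : ℕ) : ℝ) ≤ 3 * K + θ * (K * Real.log k) := by
    calc (K : ℝ) * Real.log ((8 * k / w + 1 : ℕ) : ℝ) ≤ K * (3 + θ * Real.log k) :=
          mul_le_mul_of_nonneg_left hlogQ hK0
      _ = _ := by ring
  have h3 : θ * (K * Real.log k) ≤ θ * ((1 + 3 * δ) * k) := mul_le_mul_of_nonneg_left hKlog hθ0.le
  have h4 : θ * ((1 + 3 * δ) * k) ≤ θ * k + 3 * (δ * k) := by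
    have : θ * (δ * k) ≤ 1 * (δ * k) := mul_le_mul_of_nonneg_right hθ1.le (by positivity)
    linarith
  have h5 : ε * k = θ * k + 12 * (δ * k) := by rw [hδ]; ring
  have h6 : 0 < δ * k := by positivity
  rw [h5]
  linarith

end Pool.Agent.H895R3.NU
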