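import Pool.Agent.H895R3.NU.G1

set_option autoImplicit false
set_option maxHeartbeats 4000000

/-! # The upper bound away from `k`, at positive distance -/

namespace Pool.Agent.H895R3.NU

open Finset

theorem away_const (η : ℝ) (hη0 : 0 < η) (hη1 : η ≤ 1) :
    ∃ C : ℝ, ∃ k₀ : ℕ, ∀ k : ℕ, k₀ ≤ k → ∃ n : ℕ, 2 * k ≤ n ∧
      (n : ℝ) ≤ Real.exp (C * (k / Real.log k)) ∧
      ∀ p : ℕ, p.Prime → (1 + η) * k < p → p < 2 * k → ∀ i ∈ Icc 1 k, ¬ p ∣ n - i := by
  obtain ⟨N₀, hth⟩ := theta_close (1 / 3) (by norm_num)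
  have h1 := (Real.isLittleO_pow_log_id_atTop (n := 2)).bound (show (0 : ℝ) < 1 / 2 by norm_num)
  rw [Filter.eventually_atTop] at h1
  obtain ⟨x₀, hx₀⟩ := h1
  set B : ℝ := 16 / η + 1 with hB
  have hB1 : 1 < B := by
    rw [hB]
    have : 0 < 16 / η := by positivity
    linarith
  have hlB : 0 < Real.log B := Real.log_pos hB1
  refine ⟨1 + 2 * Real.log B, N₀ + 12 + ⌈x₀⌉₊ + ⌈8 / η⌉₊, fun k hk => ?_⟩
  have hk12 : 12 ≤ k := by omega
  have hkr : (12 : ℝ) ≤ k := by exact_mod_cast hk12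
  have hk0 : (0 : ℝ) < k := by linarith
  have hkx : x₀ ≤ (k : ℝ) := (Nat.le_ceil _).trans (by exact_mod_cast (by omega : ⌈x₀⌉₊ ≤ k))
  have hkη : 8 ≤ η * k := by
    have h2 : 8 / η ≤ k := (Nat.le_ceil _).trans (by exact_mod_cast (by omega : ⌈8 / η⌉₊ ≤ k))
    rw [div_le_iff₀ hη0] at h2
    linarith
  set w : ℕ := ⌊η * k⌋₊ with hw
  have hw1 : (w : ℝ) ≤ η * k := Nat.floor_le (by positivity)
  have hw2 : η * k < w + 1 := Nat.lt_floor_add_one _
  have hw4' : 4 ≤ w := Nat.le_floor (by push_cast; linarith)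
  have hwk : w ≤ k := by
    have h1 : η * k ≤ 1 * k := mul_le_mul_of_nonneg_right hη1 hk0.le
    have h2 : (w : ℝ) ≤ k := by linarith
    exact_mod_cast h2
  obtain ⟨n, hn1, hn2, hn3⟩ := away_explicit k w hw4' hwk
  refine ⟨n, hn1, ?_, fun p hp h1 h2 i hi => hn3 p hp ?_ h2 i hi⟩
  swap
  · have : ((k + w : ℕ) : ℝ) < p := by push_cast; linarith
    exact_mod_cast this
  set K := ((Ioc k (2 * k)).filter Nat.Prime).card with hK
  have t1 := abs_le.1 (hth k (by omega))
  have t3 := abs_le.1 (hth (2 * k) (by omega))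
  have s1 := Pool.Agent.H895R3.NK.theta_sub k (2 * k) (by omega)
  push_cast at t3 s1
  have hlogk : 1 < Real.log k := by
    rw [Real.lt_log_iff_exp_lt hk0]
    have := Real.exp_one_lt_d9
    linarith
  have hlk0 : 0 < Real.log k := by linarith
  have hKlog : (K : ℝ) * Real.log k ≤ 2 * k := by
    have h1 : (K : ℝ) * Real.log k ≤ Chebyshev.theta (2 * (k : ℝ)) - Chebyshev.theta (k : ℝ) := by
      rw [s1, hK, ← nsmul_eq_mul]
      apply card_nsmul_le_sum
      intro p hp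
      rw [mem_filter, mem_Ioc] at hp
      apply Real.log_le_log hk0
      exact_mod_cast hp.1.1.le
    linarith [t1.1, t3.2]
  have hK2 : (K : ℝ) ≤ 2 * (k / Real.log k) := by
    rw [← mul_div_assoc, le_div_iff₀ hlk0]
    exact hKlog
  have hlog4 : Real.log (4 * k) ≤ k / Real.log k := by
    rw [le_div_iff₀ hlk0]
    have h2 := hx₀ k hkx
    rw [Real.norm_eq_abs, Real.norm_eq_abs, id_eq, abs_of_nonneg (by positivity), abs_of_pos hk0] at h2
    have h3 : Real.log (4 * k) ≤ 2 * Real.log k := by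
      have h4 : 2 * Real.log k = Real.log (k * k) := by
        rw [Real.log_mul hk0.ne' hk0.ne']; ring
      rw [h4]
      apply Real.log_le_log (by positivity)
      nlinarith
    calc Real.log (4 * k) * Real.log k ≤ (2 * Real.log k) * Real.log k := by gcongr
      _ = 2 * (Real.log k ^ 2) := by ring
      _ ≤ k := by linarith
  have hQ : ((8 * k / w + 1 : ℕ) : ℝ) ≤ B := by
    have hwr : (4 : ℝ) ≤ w := by exact_mod_cast hw4'
    have h1 : ((8 * k / w : ℕ) : ℝ) ≤ (8 * k : ℕ) / (w : ℝ) := Nat.cast_div_le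
    have h5 : ((8 * k : ℕ) : ℝ) / (w : ℝ) ≤ 16 / η := by
      rw [div_le_div_iff₀ (by linarith) hη0]
      push_cast
      nlinarith
    push_cast at h1 h5 ⊢
    linarith
  have hn0 : (0 : ℝ) < n := by exact_mod_cast (by omega : 0 < n)
  rw [← Real.log_le_iff_le_exp hn0]
  have hBn : (n : ℝ) ≤ 4 * k * ((8 * k / w + 1 : ℕ) : ℝ) ^ K := by exact_mod_cast hn2
  have h1 := Real.log_le_log hn0 hBn
  rw [Real.log_mul (by positivity) (by positivity), Real.log_pow] at h1
  have h2 : (K : ℝ) * Real.log ((8 * k / w + 1 : ℕ) : ℝ) ≤ (2 * (k / Real.log k)) * Real.log B := by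
    have h3 : Real.log ((8 * k / w + 1 : ℕ) : ℝ) ≤ Real.log B := Real.log_le_log (by positivity) hQ
    have h4 : 0 ≤ Real.log ((8 * k / w + 1 : ℕ) : ℝ) := Real.log_natCast_nonneg _
    gcongr
  have h5 : (1 + 2 * Real.log B) * (k / Real.log k) = k / Real.log k + (2 * (k / Real.log k)) * Real.log B := by
    ring
  rw [h5]
  linarith

end Pool.Agent.H895R3.NU
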