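import Pool.Agent.H895R3.NU.J1

set_option autoImplicit false
set_option maxHeartbeats 4000000

namespace Pool.Agent.H895R3.NU

open Finset

/-- number of representations, integer argument -/
def FFz (v p : ℕ) (x : ℤ) : ℕ :=
  ((range v ×ˢ range v).filter fun q => (p : ℤ) ∣ x + q.1 + q.2).card

lemma FFz_fourier (v p : ℕ) (x : ℤ) (hp : 0 < p) :
    ∑ h ∈ range p, (SS v ((h : ℝ) / p)) ^ 2 * e (h * ((x : ℝ) / p)) = p * FFz v p x := by
  have h1 : ∀ h ∈ range p, (SS v ((h : ℝ) / p)) ^ 2 * e (h * ((x : ℝ) / p))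
      = ∑ q ∈ range v ×ˢ range v, e (h * (((x + q.1 + q.2 : ℤ) : ℝ) / p)) := by
    intro h _
    unfold SS
    rw [sq, sum_mul_sum, sum_product, sum_mul]
    refine sum_congr rfl fun y _ => ?_
    rw [sum_mul]
    refine sum_congr rfl fun y' _ => ?_
    rw [mul_comm, e_add_mul]
    push_cast
    rfl
  rw [sum_congr rfl h1, sum_comm]
  have h2 : ∀ q ∈ range v ×ˢ range v, ∑ h ∈ range p, e (h * (((x + q.1 + q.2 : ℤ) : ℝ) / p))
      = if (p : ℤ) ∣ x + q.1 + q.2 then (p : ℂ) else 0 := by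
    intro q _
    rw [orth p hp]
  rw [sum_congr rfl h2, ← sum_filter, sum_const, nsmul_eq_mul]
  unfold FFz
  ring

/-- normalised weight -/
noncomputable def RR (v p : ℕ) (x : ℤ) : ℝ := p * FFz v p x / (v : ℝ) ^ 2

lemma RR_nonneg (v p : ℕ) (x : ℤ) : 0 ≤ RR v p x := by unfold RR; positivity

lemma FFz_pos {v p : ℕ} {x : ℤ} (h : FFz v p x ≠ 0) : ∃ s : ℕ, s + 2 ≤ 2 * v ∧ (p : ℤ) ∣ x + s := by
  unfold FFz at h
  rw [card_ne_zero] at h
  obtain ⟨q, hq⟩ := h
  rw [mem_filter, mem_product, mem_range, mem_range] at hq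
  refine ⟨q.1 + q.2, by omega, ?_⟩
  push_cast
  rw [← add_assoc]
  exact hq.2

lemma FFz_le (v p : ℕ) (x : ℤ) (hvp : v ≤ p) : FFz v p x ≤ v := by
  unfold FFz
  have h1 : ((range v ×ˢ range v).filter fun q => (p : ℤ) ∣ x + q.1 + q.2).card ≤ (range v).card := by
    refine card_le_card_of_injOn (fun q => q.1) ?_ ?_
    · intro q hq
      simp only [coe_filter, mem_product, mem_range, Set.mem_ofPred_eq] at hq
      simp only [coe_range, Set.mem_Iio]
      exact hq.1.1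
    · intro q hq q' hq' h
      simp only [coe_filter, mem_product, mem_range, Set.mem_ofPred_eq] at hq hq'
      simp only at h
      have h3 := dvd_sub hq.2 hq'.2
      have h4 : (x + q.1 + q.2) - (x + q'.1 + q'.2) = (q.2 : ℤ) - q'.2 := by
        rw [h]; ring
      rw [h4] at h3
      have h5 : |(q.2 : ℤ) - q'.2| < p := by
        rw [abs_lt]
        constructor <;> omega
      have h6 := Int.eq_zero_of_abs_lt_dvd h3 h5
      ext
      · exact h
      · omega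
  simpa using h1

lemma RR_le (v p : ℕ) (x : ℤ) (hvp : v ≤ p) (hv : 0 < v) : RR v p x ≤ p / v := by
  unfold RR
  have h1 : (FFz v p x : ℝ) ≤ v := by exact_mod_cast FFz_le v p x hvp
  have h2 : (0 : ℝ) < v := by exact_mod_cast hv
  rw [div_le_div_iff₀ (by positivity) h2]
  have h3 : (p : ℝ) * FFz v p x ≤ p * v := by gcongr
  calc (p : ℝ) * FFz v p x * v ≤ (p * v) * v := by gcongr
    _ = p * v ^ 2 := by ring

section
variable {ι : Type} [Fintype ι] [DecidableEq ι]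

theorem two_sided (P m : ι → ℕ) (E N D k X : ℕ) (t : ℤ) (hP : ∀ i, (P i).Prime)
    (hinj : Function.Injective P) (hE : ∀ i, ¬ P i ∣ E) (hm : ∀ i, 0 < m i)
    (hmP : ∀ i, P i ≤ 24 * m i) (hv : ∀ i, 2 * m i ≤ P i) (hX : ∀ i, P i ≤ X)
    (hK : Fintype.card ι = D + k) (y : ℝ) (hy : 1 ≤ y) (hN0 : 0 < N)
    (hN : 4 * 2 ^ (D + k) * X ^ D ≤ N)
    (hpar : 2 * (b0 ^ 2) ^ D * (12 * y) ^ k * (1 + 1 / y) ^ (D + k) ≤ 1 / 4) :
    |(∑ a ∈ Icc 1 N, ∑ c ∈ Icc 1 N, ∏ i, RR (2 * m i) (P i) (((a : ℤ) + c) * E + t)) - (N : ℝ) ^ 2|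
      ≤ (N : ℝ) ^ 2 / 2 := by
  have hP0 : ∀ i, 0 < P i := fun i => (hP i).pos
  have herr := err P m E N D k X hP hinj hE hm hmP hv hX hK y hy hN0 hN hpar
  have hz : (fun _ : ι => (0 : ℕ)) ∈ Fintype.piFinset (fun i => range (P i)) := by
    rw [Fintype.mem_piFinset]
    intro i
    rw [mem_range]
    exact hP0 i
  have hth0 : th P E (fun _ => 0) = 0 := by unfold th; simp
  have hid : (((∑ a ∈ Icc 1 N, ∑ c ∈ Icc 1 N, ∏ i, RR (2 * m i) (P i) (((a : ℤ) + c) * E + t)) : ℝ) : ℂ)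
      = ∑ h ∈ Fintype.piFinset (fun i => range (P i)),
        (∏ i, (gg P m i (h i)) ^ 2 * e (h i * ((t : ℝ) / P i))) * (DD N (th P E h)) ^ 2 := by
    rw [← sum_plus P E N (fun i h => (gg P m i h) ^ 2 * e (h * ((t : ℝ) / P i)))]
    push_cast
    refine sum_congr rfl fun a ha => sum_congr rfl fun c hc => prod_congr rfl fun i _ => ?_
    have h1 : ∑ h ∈ range (P i), (gg P m i h) ^ 2 * e (h * ((t : ℝ) / P i)) *
        e (h * ((((a : ℝ) + c) * E) / P i))
        = (∑ h ∈ range (P i), (SS (2 * m i) ((h : ℝ) / P i)) ^ 2 *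
          e (h * ((((((a : ℤ) + c) * E + t : ℤ)) : ℝ) / P i))) / ((2 * m i : ℕ) : ℂ) ^ 2 := by
      rw [sum_div]
      refine sum_congr rfl fun h _ => ?_
      rw [mul_assoc, ← e_add]
      unfold gg
      have h2 : (h : ℝ) * ((t : ℝ) / P i) + h * ((((a : ℝ) + c) * E) / P i)
          = h * ((((((a : ℤ) + c) * E + t : ℤ)) : ℝ) / P i) := by
        push_cast
        ring
      rw [h2]
      ring
    rw [h1, FFz_fourier _ _ _ (hP0 i)]
    unfold RR
    push_cast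
    ring
  have h1 := add_sum_erase (Fintype.piFinset (fun i => range (P i)))
    (fun h => (∏ i, (gg P m i (h i)) ^ 2 * e (h i * ((t : ℝ) / P i))) * (DD N (th P E h)) ^ 2) hz
  have hg0 : ∀ i, gg P m i 0 = 1 := by
    intro i
    have hmr : (0 : ℝ) < ((2 * m i : ℕ) : ℝ) := by exact_mod_cast (by have := hm i; omega)
    unfold gg
    have h1 : SS (2 * m i) (((0 : ℕ) : ℝ) / P i) = ((2 * m i : ℕ) : ℂ) := by
      unfold SS
      simp [e_zero]
    rw [h1, div_self]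
    have := hmr.ne'
    exact_mod_cast this
  simp only [hg0, one_pow, one_mul, hth0, DD_zero, Nat.cast_zero, zero_mul, e_zero,
    prod_const_one] at h1
  rw [← h1] at hid
  set T : ℝ := ∑ a ∈ Icc 1 N, ∑ c ∈ Icc 1 N, ∏ i, RR (2 * m i) (P i) (((a : ℤ) + c) * E + t) with hT
  have h2 : ((T - (N : ℝ) ^ 2 : ℝ) : ℂ) = ∑ h ∈ (Fintype.piFinset (fun i => range (P i))).erase (fun _ => 0),
      (∏ i, (gg P m i (h i)) ^ 2 * e (h i * ((t : ℝ) / P i))) * (DD N (th P E h)) ^ 2 := by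
    rw [Complex.ofReal_sub, hid]
    push_cast
    ring
  have h3 : |T - (N : ℝ) ^ 2| = ‖((T - (N : ℝ) ^ 2 : ℝ) : ℂ)‖ := by rw [Complex.norm_real, Real.norm_eq_abs]
  rw [h3, h2]
  refine (norm_sum_le _ _).trans (le_trans (sum_le_sum fun h _ => le_of_eq ?_) herr)
  rw [norm_mul, norm_pow, norm_prod]
  congr 1
  refine prod_congr rfl fun i _ => ?_
  rw [norm_mul, norm_e, mul_one, norm_pow]

end

end Pool.Agent.H895R3.NU
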