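import Pool.Agent.H895R3.NU.J2

set_option autoImplicit false
set_option maxHeartbeats 4000000

namespace Pool.Agent.H895R3.NU

open Finset

/-- the weight attached to a set of primes -/
noncomputable def WW (S : Finset ℕ) (x : ℤ) : ℝ := ∏ p ∈ S, RR (2 * (p / 8)) p x

lemma WW_nonneg (S : Finset ℕ) (x : ℤ) : 0 ≤ WW S x := prod_nonneg fun _ _ => RR_nonneg _ _ _

theorem main_count (S : Finset ℕ) (E N D k X : ℕ) (t : ℤ)
    (hS : ∀ p ∈ S, p.Prime ∧ 16 ≤ p ∧ p ≤ X ∧ ¬ p ∣ E)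
    (hK : S.card = D + k) (y : ℝ) (hy : 1 ≤ y) (hN0 : 0 < N)
    (hN : 4 * 2 ^ (D + k) * X ^ D ≤ N)
    (hpar : 2 * (b0 ^ 2) ^ D * (12 * y) ^ k * (1 + 1 / y) ^ (D + k) ≤ 1 / 4) :
    |(∑ a ∈ Icc 1 N, ∑ c ∈ Icc 1 N, WW S (((a : ℤ) + c) * E + t)) - (N : ℝ) ^ 2|
      ≤ (N : ℝ) ^ 2 / 2 := by
  have h := two_sided (ι := {p // p ∈ S}) (fun p => (p : ℕ)) (fun p => (p : ℕ) / 8) E N D k X t
    (fun p => (hS p p.2).1) Subtype.coe_injective (fun p => (hS p p.2).2.2.2)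
    (fun p => by have := (hS p p.2).2.1; omega) (fun p => by have := (hS p p.2).2.1; omega)
    (fun p => by omega) (fun p => (hS p p.2).2.2.1) (by rw [Fintype.card_coe]; exact hK) y hy hN0 hN hpar
  have h1 : ∀ x : ℤ, ∏ p : {p // p ∈ S}, RR (2 * ((p : ℕ) / 8)) (p : ℕ) x = WW S x := by
    intro x
    unfold WW
    exact prod_coe_sort S (fun p => RR (2 * (p / 8)) p x)
  simp only [h1] at h
  exact h

lemma split_sum (r N : ℕ) (hr : 0 < r) (G : ℤ → ℝ) (hG : ∀ x, 0 ≤ G x) :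
    ∑ a ∈ Icc 1 N, G a ≤ ∑ a0 ∈ range r, ∑ a' ∈ Icc 1 (N / r + 1), G ((r : ℤ) * (a' : ℕ) - (a0 : ℕ)) := by
  classical
  rw [← sum_product']
  set φ : ℕ → ℕ × ℕ := fun a => (r * ((a - 1) / r + 1) - a, (a - 1) / r + 1) with hφ
  have hkey : ∀ a ∈ Icc 1 N, a ≤ r * ((a - 1) / r + 1) ∧ r * ((a - 1) / r + 1) < a + r := by
    intro a ha
    rw [mem_Icc] at ha
    have h1 := Nat.div_add_mod (a - 1) r
    have h2 := Nat.mod_lt (a - 1) hr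
    rw [mul_add, mul_one]
    omega
  have hval : ∀ a ∈ Icc 1 N, ((r : ℤ) * ((φ a).2 : ℕ) - ((φ a).1 : ℕ)) = (a : ℤ) := by
    intro a ha
    have := hkey a ha
    simp only [hφ]
    rw [Nat.cast_sub this.1]
    push_cast
    ring
  have h1 : ∑ a ∈ Icc 1 N, G a = ∑ q ∈ (Icc 1 N).image φ, G ((r : ℤ) * (q.2 : ℕ) - (q.1 : ℕ)) := by
    rw [sum_image]
    · refine sum_congr rfl fun a ha => ?_
      rw [hval a ha]
    · intro a ha b hb hab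
      have h2 := hval a (by simpa using ha)
      have h3 := hval b (by simpa using hb)
      rw [hab] at h2
      have : (a : ℤ) = b := by rw [← h2, ← h3]
      exact_mod_cast this
  rw [h1]
  apply sum_le_sum_of_subset_of_nonneg
  · intro q hq
    rw [mem_image] at hq
    obtain ⟨a, ha, rfl⟩ := hq
    have h2 := hkey a ha
    rw [mem_Icc] at ha
    simp only [hφ, mem_product, mem_range, mem_Icc]
    have h3 := Nat.div_le_div_right (c := r) (show a - 1 ≤ N by omega)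
    exact ⟨by omega, Nat.le_add_left 1 _, Nat.succ_le_succ h3⟩
  · intro q _ _
    exact hG _

theorem class_bound (S : Finset ℕ) (E N D k X r : ℕ) (ρ : ℤ) (hr : 0 < r)
    (hS : ∀ p ∈ S, p.Prime ∧ 16 ≤ p ∧ p ≤ X ∧ ¬ p ∣ E ∧ ¬ p ∣ r)
    (hK : S.card = D + k) (y : ℝ) (hy : 1 ≤ y) (hNr : r ≤ N)
    (hN : 4 * 2 ^ (D + k) * X ^ D ≤ N / r + 1)
    (hpar : 2 * (b0 ^ 2) ^ D * (12 * y) ^ k * (1 + 1 / y) ^ (D + k) ≤ 1 / 4) :
    ∑ a ∈ Icc 1 N, ∑ c ∈ Icc 1 N, (if (r : ℤ) ∣ (a : ℤ) + c - ρ then WW S (((a : ℤ) + c) * E) else 0)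
      ≤ 6 * (N : ℝ) ^ 2 / r := by
  set F : ℤ → ℤ → ℝ := fun a c => if (r : ℤ) ∣ a + c - ρ then WW S ((a + c) * E) else 0 with hF
  have hF0 : ∀ a c, 0 ≤ F a c := by
    intro a c
    simp only [hF]
    split_ifs
    · exact WW_nonneg _ _
    · exact le_rfl
  have h1 : ∑ a ∈ Icc 1 N, ∑ c ∈ Icc 1 N, F a c ≤
      ∑ a0 ∈ range r, ∑ a' ∈ Icc 1 (N / r + 1), ∑ c0 ∈ range r, ∑ c' ∈ Icc 1 (N / r + 1),
        F ((r : ℤ) * (a' : ℕ) - (a0 : ℕ)) ((r : ℤ) * (c' : ℕ) - (c0 : ℕ)) := by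
    calc ∑ a ∈ Icc 1 N, ∑ c ∈ Icc 1 N, F a c
        ≤ ∑ a ∈ Icc 1 N, ∑ c0 ∈ range r, ∑ c' ∈ Icc 1 (N / r + 1),
            F a ((r : ℤ) * (c' : ℕ) - (c0 : ℕ)) :=
          sum_le_sum fun a _ => split_sum r N hr (fun c => F a c) fun c => hF0 _ _
      _ ≤ _ := split_sum r N hr (fun a => ∑ c0 ∈ range r, ∑ c' ∈ Icc 1 (N / r + 1),
            F a ((r : ℤ) * (c' : ℕ) - (c0 : ℕ))) fun a => sum_nonneg fun _ _ => sum_nonneg fun _ _ => hF0 _ _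
  have h2 : ∀ a0 ∈ range r, ∀ c0 ∈ range r, ∑ a' ∈ Icc 1 (N / r + 1), ∑ c' ∈ Icc 1 (N / r + 1),
        F ((r : ℤ) * (a' : ℕ) - (a0 : ℕ)) ((r : ℤ) * (c' : ℕ) - (c0 : ℕ))
      ≤ if (r : ℤ) ∣ (a0 : ℤ) + c0 + ρ then 3 / 2 * ((N / r + 1 : ℕ) : ℝ) ^ 2 else 0 := by
    intro a0 _ c0 _
    have hiff : ∀ a' c' : ℕ, ((r : ℤ) ∣ ((r : ℤ) * a' - a0) + ((r : ℤ) * c' - c0) - ρ) ↔
        (r : ℤ) ∣ (a0 : ℤ) + c0 + ρ := by
      intro a' c'
      have h3 : ((r : ℤ) * a' - a0) + ((r : ℤ) * c' - c0) - ρ = r * (a' + c') - ((a0 : ℤ) + c0 + ρ) := by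
        ring
      rw [h3]
      constructor
      · intro h
        exact (Int.dvd_iff_dvd_of_dvd_sub h).1 (Dvd.intro _ rfl)
      · intro h
        exact dvd_sub (Dvd.intro _ rfl) h
    by_cases hd : (r : ℤ) ∣ (a0 : ℤ) + c0 + ρ
    · rw [if_pos hd]
      have h4 : ∀ a' ∈ Icc 1 (N / r + 1), ∀ c' ∈ Icc 1 (N / r + 1),
          F ((r : ℤ) * (a' : ℕ) - (a0 : ℕ)) ((r : ℤ) * (c' : ℕ) - (c0 : ℕ))
          = WW S ((((a' : ℕ) : ℤ) + ((c' : ℕ) : ℤ)) * ((r * E : ℕ) : ℤ) + (-((a0 : ℤ) + c0) * E)) := by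
        intro a' _ c' _
        simp only [hF]
        rw [if_pos ((hiff a' c').2 hd)]
        congr 1
        push_cast
        ring
      rw [sum_congr rfl fun a' ha' => sum_congr rfl fun c' hc' => h4 a' ha' c' hc']
      have h5 := main_count S (r * E) (N / r + 1) D k X (-((a0 : ℤ) + c0) * E)
        (fun p hp => by
          obtain ⟨a1, a2, a3, a4, a5⟩ := hS p hp
          refine ⟨a1, a2, a3, fun h => ?_⟩
          rcases a1.dvd_mul.1 h with h | h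
          · exact a5 h
          · exact a4 h)
        hK y hy (Nat.succ_pos _) hN hpar
      have h6 := (abs_le.1 h5).2
      linarith
    · rw [if_neg hd]
      apply le_of_eq
      refine sum_eq_zero fun a' _ => sum_eq_zero fun c' _ => ?_
      simp only [hF]
      rw [if_neg (fun h => hd ((hiff a' c').1 h))]
  have h3 : ∀ a0 ∈ range r, ∑ c0 ∈ range r,
      (if (r : ℤ) ∣ (a0 : ℤ) + c0 + ρ then 3 / 2 * ((N / r + 1 : ℕ) : ℝ) ^ 2 else 0)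
      ≤ 3 / 2 * ((N / r + 1 : ℕ) : ℝ) ^ 2 := by
    intro a0 _
    rw [← sum_filter, sum_const, nsmul_eq_mul]
    have h4 : ((range r).filter fun c0 : ℕ => (r : ℤ) ∣ (a0 : ℤ) + c0 + ρ).card ≤ 1 := by
      rw [card_le_one]
      intro x hx y hy
      rw [mem_filter, mem_range] at hx hy
      have h5 := dvd_sub hx.2 hy.2
      have h6 : ((a0 : ℤ) + x + ρ) - ((a0 : ℤ) + y + ρ) = (x : ℤ) - y := by ring
      rw [h6] at h5
      have h7 : |(x : ℤ) - y| < r := by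
        rw [abs_lt]
        constructor <;> omega
      have := Int.eq_zero_of_abs_lt_dvd h5 h7
      omega
    have h5 : (((range r).filter fun c0 : ℕ => (r : ℤ) ∣ (a0 : ℤ) + c0 + ρ).card : ℝ) ≤ 1 := by
      exact_mod_cast h4
    have h6 : 0 ≤ 3 / 2 * ((N / r + 1 : ℕ) : ℝ) ^ 2 := by positivity
    nlinarith
  have hrr : (0 : ℝ) < r := by exact_mod_cast hr
  have h4 : ∑ a ∈ Icc 1 N, ∑ c ∈ Icc 1 N, F a c ≤ r * (3 / 2 * ((N / r + 1 : ℕ) : ℝ) ^ 2) := by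
    refine h1.trans ?_
    have h5 : ∀ a0 ∈ range r, ∑ a' ∈ Icc 1 (N / r + 1), ∑ c0 ∈ range r, ∑ c' ∈ Icc 1 (N / r + 1),
        F ((r : ℤ) * (a' : ℕ) - (a0 : ℕ)) ((r : ℤ) * (c' : ℕ) - (c0 : ℕ))
        ≤ 3 / 2 * ((N / r + 1 : ℕ) : ℝ) ^ 2 := by
      intro a0 ha0
      rw [sum_comm]
      exact (sum_le_sum fun c0 hc0 => h2 a0 ha0 c0 hc0).trans (h3 a0 ha0)
    refine (sum_le_sum h5).trans ?_
    rw [sum_const, card_range, nsmul_eq_mul]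
  refine h4.trans ?_
  have h5 : ((N / r + 1 : ℕ) : ℝ) ≤ 2 * (N / r) := by
    push_cast
    have h6 : ((N / r : ℕ) : ℝ) ≤ N / r := Nat.cast_div_le
    have h7 : (1 : ℝ) ≤ N / r := by
      rw [one_le_div hrr]
      exact_mod_cast hNr
    linarith
  have h6 : ((N / r + 1 : ℕ) : ℝ) ^ 2 ≤ (2 * ((N : ℝ) / r)) ^ 2 := by
    apply pow_le_pow_left₀ (by positivity) h5
  calc (r : ℝ) * (3 / 2 * ((N / r + 1 : ℕ) : ℝ) ^ 2) ≤ r * (3 / 2 * (2 * ((N : ℝ) / r)) ^ 2) := by gcongr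
    _ = 6 * (N : ℝ) ^ 2 / r := by
      field_simp
      ring

end Pool.Agent.H895R3.NU
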