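import Pool.Agent.H895R3.NU.J3

set_option autoImplicit false
set_option maxHeartbeats 4000000

namespace Pool.Agent.H895R3.NU

open Finset

lemma lucas_step {p n k : ℕ} (hp : p.Prime) (h1 : k % p ≤ n % p)
    (h2 : ¬ p ∣ (n / p).choose (k / p)) : ¬ p ∣ n.choose k := by
  haveI : Fact p.Prime := ⟨hp⟩
  have h := Choose.choose_modEq_choose_mod_mul_choose_div_nat (n := n) (k := k) (p := p)
  intro hd
  have h3 : p ∣ (n % p).choose (k % p) * (n / p).choose (k / p) := (h.dvd_iff (dvd_refl p)).1 hd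
  rcases hp.dvd_mul.1 h3 with h4 | h4
  · have h5 : p ∣ (n % p).factorial := by
      rw [← Nat.choose_mul_factorial_mul_factorial h1]
      exact (h4.mul_right _).mul_right _
    have h6 := (hp.dvd_factorial).1 h5
    have := Nat.mod_lt n hp.pos
    omega
  · exact h2 h4

lemma digit_full {p : ℕ} (hp : p.Prime) : ∀ (e n k t : ℕ), n + 1 = p ^ e * t → k < p ^ e →
    ¬ p ∣ n.choose k := by
  intro e
  induction e with
  | zero =>
    intro n k t _ hk
    have : k = 0 := by simpa using hk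
    subst this
    rw [Nat.choose_zero_right]
    exact fun h => absurd (Nat.le_of_dvd one_pos h) (by have := hp.one_lt; omega)
  | succ e ih =>
    intro n k t hn hk
    set q := p ^ e * t with hq
    have hn' : n + 1 = p * q := by rw [hn, hq, pow_succ]; ring
    have hq0 : 0 < q := by
      rcases Nat.eq_zero_or_pos q with h | h
      · rw [h, mul_zero] at hn'; omega
      · exact h
    obtain ⟨q', hq'⟩ : ∃ q', q = q' + 1 := ⟨q - 1, by omega⟩
    have hp0 := hp.pos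
    have hp1 := hp.one_lt
    have hn2 : n = p * q' + (p - 1) := by
      rw [hq', mul_add, mul_one] at hn'
      omega
    have hmod : n % p = p - 1 := by
      rw [hn2, Nat.mul_add_mod, Nat.mod_eq_of_lt (by omega)]
    have hdiv : n / p = q' := by
      rw [hn2, Nat.mul_add_div hp0, Nat.div_eq_of_lt (by omega), add_zero]
    apply lucas_step hp
    · rw [hmod]
      have := Nat.mod_lt k hp0
      omega
    · apply ih (n / p) (k / p) t
      · rw [hdiv, ← hq', hq]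
      · apply Nat.div_lt_of_lt_mul
        rw [pow_succ, mul_comm] at hk
        exact hk

lemma digit_two {p n k : ℕ} (hp : p.Prime) (hk : k < p * p) (h1 : k % p ≤ n % p)
    (h2 : k / p ≤ (n / p) % p) : ¬ p ∣ n.choose k := by
  have h3 : k / p < p := Nat.div_lt_of_lt_mul hk
  apply lucas_step hp h1
  apply lucas_step hp
  · rw [Nat.mod_eq_of_lt h3]
    exact h2
  · rw [Nat.div_eq_of_lt h3, Nat.choose_zero_right]
    exact fun h => absurd (Nat.le_of_dvd one_pos h) (by have := hp.one_lt; omega)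

def ex (Y k p : ℕ) : ℕ := if p ≤ Y then Nat.log p k + 1 else 1

def Eg (Y k : ℕ) : ℕ := ∏ p ∈ (Icc 1 (3 * k / 4)).filter Nat.Prime, p ^ ex Y k p

def Lg (k : ℕ) : Finset ℕ := (Ioc (3 * k / 4) k).filter Nat.Prime

lemma Eg_pos (Y k : ℕ) : 0 < Eg Y k :=
  prod_pos fun _ hp => pow_pos (mem_filter.1 hp).2.pos _

lemma Eg_dvd {Y k p : ℕ} (hp : p.Prime) (h : p ≤ 3 * k / 4) : p ^ ex Y k p ∣ Eg Y k :=
  dvd_prod_of_mem (fun p => p ^ ex Y k p) (by
    rw [mem_filter, mem_Icc]; exact ⟨⟨hp.one_lt.le, h⟩, hp⟩)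

lemma Eg_ndvd {Y k p : ℕ} (hp : p.Prime) (h : 3 * k / 4 < p) : ¬ p ∣ Eg Y k := by
  intro hd
  unfold Eg at hd
  rw [Prime.dvd_finsetProd_iff hp.prime] at hd
  obtain ⟨q, hq, hdq⟩ := hd
  rw [mem_filter, mem_Icc] at hq
  have h1 := hp.dvd_of_dvd_pow hdq
  have := Nat.le_of_dvd hq.2.pos h1
  omega

lemma Eg_split {Y k p : ℕ} (hp : p.Prime) (h : p ≤ 3 * k / 4) (hY : Y < p) :
    ∃ E', Eg Y k = p * E' ∧ ¬ p ∣ E' := by
  have hmem : p ∈ (Icc 1 (3 * k / 4)).filter Nat.Prime := by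
    rw [mem_filter, mem_Icc]; exact ⟨⟨hp.one_lt.le, h⟩, hp⟩
  refine ⟨∏ q ∈ ((Icc 1 (3 * k / 4)).filter Nat.Prime).erase p, q ^ ex Y k q, ?_, ?_⟩
  · unfold Eg
    rw [← mul_prod_erase _ _ hmem]
    congr 1
    unfold ex
    rw [if_neg (by omega), pow_one]
  · intro hd
    rw [Prime.dvd_finsetProd_iff hp.prime] at hd
    obtain ⟨q, hq, hdq⟩ := hd
    rw [mem_erase, mem_filter] at hq
    have h1 := hp.dvd_of_dvd_pow hdq
    exact hq.1 ((Nat.prime_dvd_prime_iff_eq hp hq.2.2).1 h1).symm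

lemma class_of (r M : ℕ) (hcop : Nat.Coprime M r) :
    ∃ w : ℤ, ∀ (x z : ℤ), (r : ℤ) ∣ x * M - z → (r : ℤ) ∣ x - z * w := by
  obtain ⟨a, b, hab⟩ := Nat.isCoprime_iff_coprime.mpr hcop
  refine ⟨a, fun x z h => ?_⟩
  have h1 : x - z * a = x * b * r + a * (x * M - z) := by
    have : x = x * (a * M + b * r) := by rw [hab, mul_one]
    linear_combination this
  rw [h1]
  exact dvd_add (Dvd.intro_left _ rfl) (h.mul_left _)

lemma sum_classes (S : Finset ℕ) (E N D k X r J : ℕ) (ρ : ℕ → ℤ) (hr : 0 < r)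
    (hS : ∀ p ∈ S, p.Prime ∧ 16 ≤ p ∧ p ≤ X ∧ ¬ p ∣ E ∧ ¬ p ∣ r)
    (hK : S.card = D + k) (y : ℝ) (hy : 1 ≤ y) (hNr : r ≤ N)
    (hN : 4 * 2 ^ (D + k) * X ^ D ≤ N / r + 1)
    (hpar : 2 * (b0 ^ 2) ^ D * (12 * y) ^ k * (1 + 1 / y) ^ (D + k) ≤ 1 / 4)
    (cond : ℕ → ℕ → Prop) [∀ a c, Decidable (cond a c)]
    (hcond : ∀ a ∈ Icc 1 N, ∀ c ∈ Icc 1 N, cond a c → ∃ j ∈ range J, (r : ℤ) ∣ (a : ℤ) + c - ρ j) :
    ∑ a ∈ Icc 1 N, ∑ c ∈ Icc 1 N, (if cond a c then WW S (((a : ℤ) + c) * E) else 0)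
      ≤ J * (6 * (N : ℝ) ^ 2 / r) := by
  have h1 : ∀ a ∈ Icc 1 N, ∀ c ∈ Icc 1 N, (if cond a c then WW S (((a : ℤ) + c) * E) else 0)
      ≤ ∑ j ∈ range J, (if (r : ℤ) ∣ (a : ℤ) + c - ρ j then WW S (((a : ℤ) + c) * E) else 0) := by
    intro a ha c hc
    have hnn : ∀ j ∈ range J, 0 ≤ (if (r : ℤ) ∣ (a : ℤ) + c - ρ j then WW S (((a : ℤ) + c) * E) else 0) := by
      intro j _
      split_ifs
      · exact WW_nonneg _ _
      · exact le_rfl
    by_cases h : cond a c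
    · rw [if_pos h]
      obtain ⟨j, hj, hd⟩ := hcond a ha c hc h
      refine le_trans (le_of_eq ?_) (single_le_sum hnn hj)
      rw [if_pos hd]
    · rw [if_neg h]
      exact sum_nonneg hnn
  refine (sum_le_sum fun a ha => sum_le_sum fun c hc => h1 a ha c hc).trans ?_
  rw [sum_congr rfl fun a _ => sum_comm]
  rw [sum_comm]
  refine (sum_le_sum fun j _ => class_bound S E N D k X r (ρ j) hr hS hK y hy hNr hN hpar).trans ?_
  rw [sum_const, card_range, nsmul_eq_mul]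

end Pool.Agent.H895R3.NU
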