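import Pool.Agent.H895R3.NU.J4

set_option autoImplicit false
set_option maxHeartbeats 4000000

namespace Pool.Agent.H895R3.NU

open Finset

/-- bad second digit -/
abbrev Bad (k p n : ℕ) : Prop := (n / p) % p < k / p

lemma Lg_mem {k p : ℕ} (hp : p ∈ Lg k) : p.Prime ∧ 3 * k / 4 < p ∧ p ≤ k := by
  unfold Lg at hp
  rw [mem_filter, mem_Ioc] at hp
  exact ⟨hp.2, hp.1.1, hp.1.2⟩

lemma B_small (Y k D k' N p : ℕ) (y : ℝ) (hy : 1 ≤ y) (hk : 64 ≤ k) (hY0 : 1 ≤ Y)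
    (hp : p.Prime) (hp1 : Y < p) (hp2 : p ≤ 3 * k / 4)
    (hcard : (Lg k).card = D + k')
    (hpar : 2 * (b0 ^ 2) ^ D * (12 * y) ^ k' * (1 + 1 / y) ^ (D + k') ≤ 1 / 4)
    (hN : N = k ^ 2 * (4 * 2 ^ (D + k') * k ^ D)) :
    ∑ a ∈ Icc 1 N, ∑ c ∈ Icc 1 N,
      (if Bad k p ((a + c) * Eg Y k - 1) then WW (Lg k) (((a : ℤ) + c) * (Eg Y k : ℕ)) else 0)
      ≤ (6 * k / (Y : ℝ) ^ 2) * (N : ℝ) ^ 2 := by
  obtain ⟨E', hE, hpE⟩ := Eg_split (k := k) hp hp2 hp1
  have hE'0 : 0 < E' := by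
    rcases Nat.eq_zero_or_pos E' with h | h
    · rw [h] at hpE; simp at hpE
    · exact h
  obtain ⟨w, hw⟩ := class_of p E' ((Nat.coprime_comm.1 ((Nat.Prime.coprime_iff_not_dvd hp).2 hpE)))
  have hp0 := hp.pos
  have hM : 1 ≤ 4 * 2 ^ (D + k') * k ^ D := Nat.one_le_iff_ne_zero.2 (by positivity)
  have hpk : p ≤ k := by omega
  have hpk2 : p ≤ k ^ 2 := hpk.trans (Nat.le_self_pow (by norm_num) k)
  have hNr : p ≤ N := by
    rw [hN]
    exact hpk2.trans (Nat.le_mul_of_pos_right _ hM)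
  have hNr2 : 4 * 2 ^ (D + k') * k ^ D ≤ N / p + 1 := by
    have : 4 * 2 ^ (D + k') * k ^ D ≤ N / p := by
      rw [Nat.le_div_iff_mul_le hp0, hN, mul_comm]
      exact Nat.mul_le_mul_right _ hpk2
    omega
  have h := sum_classes (Lg k) (Eg Y k) N D k' k p (k / p) (fun j => ((j : ℤ) + 1) * w) hp0
    (fun q hq => by
      obtain ⟨a1, a2, a3⟩ := Lg_mem hq
      refine ⟨a1, by omega, a3, Eg_ndvd a1 a2, fun hd => ?_⟩
      have := Nat.le_of_dvd hp0 hd
      omega)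
    hcard y hy hNr hNr2 hpar (fun a c => Bad k p ((a + c) * Eg Y k - 1))
    (fun a ha c hc hbad => by
      rw [mem_Icc] at ha hc
      refine ⟨(((a + c) * Eg Y k - 1) / p) % p, mem_range.2 hbad, ?_⟩
      apply hw
      have hx : 1 ≤ (a + c) * E' := Nat.one_le_iff_ne_zero.2 (by
        have : a + c ≠ 0 := by omega
        positivity)
      obtain ⟨z, hz⟩ : ∃ z, (a + c) * E' = z + 1 := ⟨(a + c) * E' - 1, by omega⟩
      have h1 : (a + c) * Eg Y k - 1 = p * z + (p - 1) := by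
        have : (a + c) * Eg Y k = p * (z + 1) := by rw [← hz, hE]; ring
        rw [this, mul_add, mul_one]
        omega
      have h2 : ((a + c) * Eg Y k - 1) / p = z := by
        rw [h1, Nat.mul_add_div hp0, Nat.div_eq_of_lt (by omega), add_zero]
      rw [h2]
      have h3 : ((a : ℤ) + c) * (E' : ℤ) - (((z % p : ℕ) : ℤ) + 1) = (p : ℤ) * ((z / p : ℕ) : ℤ) := by
        have h4 : ((a : ℤ) + c) * (E' : ℤ) = (z : ℤ) + 1 := by exact_mod_cast hz
        have h5 : ((p * (z / p) + z % p : ℕ) : ℤ) = z := by rw [Nat.div_add_mod]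
        push_cast at h5 ⊢
        rw [h4]
        linarith
      rw [h3]
      exact Dvd.intro _ rfl)
  refine h.trans ?_
  have hpr : (0 : ℝ) < p := by exact_mod_cast hp0
  have hYr : (1 : ℝ) ≤ Y := by exact_mod_cast hY0
  have hYp : (Y : ℝ) ≤ p := by exact_mod_cast hp1.le
  have h1 : ((k / p : ℕ) : ℝ) ≤ k / p := Nat.cast_div_le
  calc ((k / p : ℕ) : ℝ) * (6 * (N : ℝ) ^ 2 / p) ≤ ((k : ℝ) / p) * (6 * (N : ℝ) ^ 2 / p) := by gcongr
    _ = (6 * k / (p : ℝ) ^ 2) * (N : ℝ) ^ 2 := by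
        field_simp
    _ ≤ (6 * k / (Y : ℝ) ^ 2) * (N : ℝ) ^ 2 := by gcongr

lemma B_large (Y k D k' N p : ℕ) (y : ℝ) (hy : 1 ≤ y) (hk : 64 ≤ k)
    (hp : p ∈ Lg k)
    (hcard : (Lg k).card = D + (k' + 1))
    (hpar : 2 * (b0 ^ 2) ^ D * (12 * y) ^ k' * (1 + 1 / y) ^ (D + k') ≤ 1 / 4)
    (hN : N = k ^ 2 * (4 * 2 ^ (D + (k' + 1)) * k ^ D)) :
    ∑ a ∈ Icc 1 N, ∑ c ∈ Icc 1 N,
      (if Bad k p ((a + c) * Eg Y k - 1) then WW (Lg k) (((a : ℤ) + c) * (Eg Y k : ℕ)) else 0)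
      ≤ (96 / (k : ℝ)) * (N : ℝ) ^ 2 := by
  obtain ⟨hpp, hp1, hp2⟩ := Lg_mem hp
  have hp0 := hpp.pos
  have hEp := Eg_ndvd (Y := Y) hpp hp1
  obtain ⟨w, hw⟩ := class_of (p * p) (Eg Y k) (by
    apply Nat.Coprime.mul_right <;>
      exact (Nat.coprime_comm.1 ((Nat.Prime.coprime_iff_not_dvd hpp).2 hEp)))
  have hM : 1 ≤ 4 * 2 ^ (D + (k' + 1)) * k ^ D := Nat.one_le_iff_ne_zero.2 (by positivity)
  have hpk2 : p * p ≤ k ^ 2 := by rw [sq]; exact Nat.mul_le_mul hp2 hp2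
  have hNr : p * p ≤ N := by
    rw [hN]
    exact hpk2.trans (Nat.le_mul_of_pos_right _ hM)
  have hpp0 : 0 < p * p := Nat.mul_pos hp0 hp0
  have hNr2 : 4 * 2 ^ (D + k') * k ^ D ≤ N / (p * p) + 1 := by
    have h1 : 4 * 2 ^ (D + (k' + 1)) * k ^ D ≤ N / (p * p) := by
      rw [Nat.le_div_iff_mul_le hpp0, hN, mul_comm]
      exact Nat.mul_le_mul_right _ hpk2
    have h2 : 4 * 2 ^ (D + k') * k ^ D ≤ 4 * 2 ^ (D + (k' + 1)) * k ^ D := by
      apply Nat.mul_le_mul_right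
      apply Nat.mul_le_mul_left
      exact Nat.pow_le_pow_right (by norm_num) (by omega)
    omega
  have hcard' : ((Lg k).erase p).card = D + k' := by
    rw [card_erase_of_mem hp, hcard]
    omega
  have h := sum_classes ((Lg k).erase p) (Eg Y k) N D k' k (p * p) p (fun j => ((j : ℤ) + 1) * w) hpp0
    (fun q hq => by
      rw [mem_erase] at hq
      obtain ⟨a1, a2, a3⟩ := Lg_mem hq.2
      refine ⟨a1, by omega, a3, Eg_ndvd a1 a2, fun hd => ?_⟩
      rcases a1.dvd_mul.1 hd with h | h <;>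
        exact hq.1 ((Nat.prime_dvd_prime_iff_eq a1 hpp).1 h))
    hcard' y hy hNr hNr2 hpar (fun a c => Bad k p ((a + c) * Eg Y k - 1))
    (fun a ha c hc hbad => by
      rw [mem_Icc] at ha hc
      refine ⟨((a + c) * Eg Y k - 1) % p, mem_range.2 (Nat.mod_lt _ hp0), ?_⟩
      apply hw
      have hx : 1 ≤ (a + c) * Eg Y k := Nat.one_le_iff_ne_zero.2 (by
        have h1 : a + c ≠ 0 := by omega
        have h2 := Eg_pos Y k
        positivity)
      obtain ⟨n, hn⟩ : ∃ n, (a + c) * Eg Y k = n + 1 := ⟨(a + c) * Eg Y k - 1, by omega⟩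
      rw [hn] at hbad ⊢
      rw [Nat.add_sub_cancel] at hbad ⊢
      have hkp : k / p = 1 := by
        rw [Nat.div_eq_iff hp0]
        omega
      have h0 : (n / p) % p = 0 := by
        have : (n / p) % p < k / p := hbad
        omega
      have h1 := Nat.mod_mul (x := n) (a := p) (b := p)
      rw [h0, mul_zero, add_zero] at h1
      have h2 := Nat.div_add_mod n (p * p)
      rw [h1] at h2
      have h3 : ((a : ℤ) + c) * (Eg Y k : ℤ) = (n : ℤ) + 1 := by exact_mod_cast hn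
      have h4 : ((a : ℤ) + c) * (Eg Y k : ℤ) - (((n % p : ℕ) : ℤ) + 1)
          = ((p * p : ℕ) : ℤ) * ((n / (p * p) : ℕ) : ℤ) := by
        have h5 : ((p * p * (n / (p * p)) + n % p : ℕ) : ℤ) = n := by rw [h2]
        push_cast at h5 ⊢
        rw [h3]
        linarith
      rw [h4]
      exact Dvd.intro _ rfl)
  have hpr : (0 : ℝ) < p := by exact_mod_cast hp0
  have hkr : (64 : ℝ) ≤ k := by exact_mod_cast hk
  have hWW : ∀ x : ℤ, WW (Lg k) x ≤ 12 * WW ((Lg k).erase p) x := by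
    intro x
    unfold WW
    rw [← mul_prod_erase _ _ hp]
    have h1 : RR (2 * (p / 8)) p x ≤ 12 := by
      have h2 : 0 < 2 * (p / 8) := by omega
      refine (RR_le _ _ _ (by omega) h2).trans ?_
      have h3 : (0 : ℝ) < ((2 * (p / 8) : ℕ) : ℝ) := by exact_mod_cast h2
      rw [div_le_iff₀ h3]
      have h4 : p ≤ 12 * (2 * (p / 8)) := by omega
      exact_mod_cast h4
    exact mul_le_mul_of_nonneg_right h1 (prod_nonneg fun _ _ => RR_nonneg _ _ _)
  calc ∑ a ∈ Icc 1 N, ∑ c ∈ Icc 1 N,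
        (if Bad k p ((a + c) * Eg Y k - 1) then WW (Lg k) (((a : ℤ) + c) * (Eg Y k : ℕ)) else 0)
      ≤ ∑ a ∈ Icc 1 N, ∑ c ∈ Icc 1 N,
        12 * (if Bad k p ((a + c) * Eg Y k - 1) then
          WW ((Lg k).erase p) (((a : ℤ) + c) * (Eg Y k : ℕ)) else 0) := by
        refine sum_le_sum fun a _ => sum_le_sum fun c _ => ?_
        split_ifs
        · exact hWW _
        · simp
    _ = 12 * ∑ a ∈ Icc 1 N, ∑ c ∈ Icc 1 N,
        (if Bad k p ((a + c) * Eg Y k - 1) then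
          WW ((Lg k).erase p) (((a : ℤ) + c) * (Eg Y k : ℕ)) else 0) := by
        rw [mul_sum]
        refine sum_congr rfl fun a _ => ?_
        rw [mul_sum]
    _ ≤ 12 * ((p : ℝ) * (6 * (N : ℝ) ^ 2 / ((p * p : ℕ) : ℝ))) := by gcongr
    _ = 72 / p * (N : ℝ) ^ 2 := by
        push_cast
        field_simp
        ring
    _ ≤ (96 / (k : ℝ)) * (N : ℝ) ^ 2 := by
        have h1 : 72 / (p : ℝ) ≤ 96 / k := by
          rw [div_le_div_iff₀ hpr (by linarith)]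
          have h2 : 3 * k ≤ 4 * p := by omega
          have h3 : (3 : ℝ) * k ≤ 4 * p := by exact_mod_cast h2
          linarith
        gcongr

end Pool.Agent.H895R3.NU
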