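import Pool.Agent.H895R3.NU.J5

set_option autoImplicit false
set_option maxHeartbeats 4000000

namespace Pool.Agent.H895R3.NU

open Finset

theorem gexist (Y k D k' N : ℕ) (y : ℝ) (hy : 1 ≤ y) (hk : 64 ≤ k) (hY0 : 2 ≤ Y)
    (hY : Y ≤ 3 * k / 4) (hYk : k < (Y + 1) * (Y + 1))
    (hcard : (Lg k).card = D + (k' + 1))
    (hpar1 : 2 * (b0 ^ 2) ^ D * (12 * y) ^ (k' + 1) * (1 + 1 / y) ^ (D + (k' + 1)) ≤ 1 / 4)
    (hpar2 : 2 * (b0 ^ 2) ^ D * (12 * y) ^ k' * (1 + 1 / y) ^ (D + k') ≤ 1 / 4)
    (hN : N = k ^ 2 * (4 * 2 ^ (D + (k' + 1)) * k ^ D))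
    (hsmall : (((Ioc Y k).filter Nat.Prime).card : ℝ) * (6 * k / (Y : ℝ) ^ 2 + 96 / k) < 1 / 2) :
    ∃ n : ℕ, k + 2 ≤ n ∧ n ≤ 2 * N * Eg Y k ∧ ∀ p : ℕ, p.Prime → p ≤ k → ¬ p ∣ n.choose k := by
  by_contra hcon
  push Not at hcon
  set E := Eg Y k with hE
  have hE0 : 0 < E := Eg_pos Y k
  have hEk : k < E := by
    have h1 : 2 ^ ex Y k 2 ∣ E := Eg_dvd Nat.prime_two (by omega)
    have h2 := Nat.le_of_dvd hE0 h1
    unfold ex at h2
    rw [if_pos hY0] at h2
    exact (Nat.lt_pow_succ_log_self (by norm_num) k).trans_le h2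
  have hM : 1 ≤ 4 * 2 ^ (D + (k' + 1)) * k ^ D := Nat.one_le_iff_ne_zero.2 (by positivity)
  have hN0 : 0 < N := by rw [hN]; positivity
  have hNM : 4 * 2 ^ (D + (k' + 1)) * k ^ D ≤ N := by
    rw [hN]
    exact Nat.le_mul_of_pos_left _ (by positivity)
  have hpoint : ∀ a ∈ Icc 1 N, ∀ c ∈ Icc 1 N, WW (Lg k) (((a : ℤ) + c) * (E : ℕ)) ≤
      ∑ p ∈ (Ioc Y k).filter Nat.Prime,
        (if Bad k p ((a + c) * E - 1) then WW (Lg k) (((a : ℤ) + c) * (E : ℕ)) else 0) := by
    intro a ha c hc
    rw [mem_Icc] at ha hc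
    have hnn : ∀ p ∈ (Ioc Y k).filter Nat.Prime, 0 ≤
        (if Bad k p ((a + c) * E - 1) then WW (Lg k) (((a : ℤ) + c) * (E : ℕ)) else 0) := by
      intro p _
      split_ifs
      · exact WW_nonneg _ _
      · exact le_rfl
    by_cases h0 : WW (Lg k) (((a : ℤ) + c) * (E : ℕ)) = 0
    · rw [h0] at hnn ⊢
      exact sum_nonneg hnn
    · have hx2 : 2 * E ≤ (a + c) * E := Nat.mul_le_mul_right _ (by omega)
      obtain ⟨n, hn⟩ : ∃ n, (a + c) * E = n + 1 := ⟨(a + c) * E - 1, by omega⟩
      have hnN : n ≤ 2 * N * E := by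
        have : (a + c) * E ≤ 2 * N * E := Nat.mul_le_mul_right _ (by omega)
        omega
      obtain ⟨p, hp, hpk, hpd⟩ := hcon n (by omega) hnN
      have hnsub : (a + c) * E - 1 = n := by omega
      have hp0 := hp.pos
      have hYp : Y < p := by
        by_contra hle
        push Not at hle
        have h1 : p ^ ex Y k p ∣ E := Eg_dvd hp (by omega)
        obtain ⟨t, ht⟩ := h1
        refine digit_full hp (ex Y k p) n k ((a + c) * t) ?_ ?_ hpd
        · rw [← hn, ht]; ring
        · unfold ex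
          rw [if_pos hle]
          exact Nat.lt_pow_succ_log_self hp.one_lt k
      have hbad : Bad k p ((a + c) * E - 1) := by
        rw [hnsub]
        by_contra hnb
        have hnb' : k / p ≤ (n / p) % p := not_lt.1 hnb
        have hkpp : k < p * p := hYk.trans_le (Nat.mul_le_mul (by omega) (by omega))
        refine digit_two hp hkpp ?_ hnb' hpd
        by_cases h34 : p ≤ 3 * k / 4
        · obtain ⟨E', hE', _⟩ := Eg_split (k := k) hp h34 hYp
          have h1 : n + 1 = p * ((a + c) * E') := by rw [← hn, hE, hE']; ring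
          have h2 : n % p = p - 1 := by
            obtain ⟨z, hz⟩ : ∃ z, (a + c) * E' = z + 1 := by
              refine ⟨(a + c) * E' - 1, ?_⟩
              have : (a + c) * E' ≠ 0 := by
                intro h
                rw [h, mul_zero] at h1
                omega
              omega
            rw [hz, mul_add, mul_one] at h1
            have h3 : n = p * z + (p - 1) := by omega
            rw [h3, Nat.mul_add_mod, Nat.mod_eq_of_lt (by omega)]
          rw [h2]
          have := Nat.mod_lt k hp0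
          omega
        · have hpL : p ∈ Lg k := by
            unfold Lg
            rw [mem_filter, mem_Ioc]
            exact ⟨⟨by omega, hpk⟩, hp⟩
          have hRR : RR (2 * (p / 8)) p (((a : ℤ) + c) * (E : ℕ)) ≠ 0 := by
            intro h
            exact h0 (prod_eq_zero hpL h)
          have hFF : FFz (2 * (p / 8)) p (((a : ℤ) + c) * (E : ℕ)) ≠ 0 := by
            intro h
            apply hRR
            unfold RR
            rw [h]
            simp
          obtain ⟨s, hs1, hs2⟩ := FFz_pos hFF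
          have h1 : (p : ℤ) ∣ ((n + 1 + s : ℕ) : ℤ) := by
            have h2 : ((n + 1 + s : ℕ) : ℤ) = ((a : ℤ) + c) * (E : ℕ) + s := by
              rw [← hn]
              push_cast
              ring
            rw [h2]
            exact hs2
          have h2 : p ∣ n + 1 + s := by exact_mod_cast h1
          obtain ⟨q, hq⟩ := h2
          obtain ⟨z, hz⟩ : ∃ z, q = z + 1 := by
            refine ⟨q - 1, ?_⟩
            have : q ≠ 0 := by
              intro h
              rw [h, mul_zero] at hq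
              omega
            omega
          rw [hz, mul_add, mul_one] at hq
          have h3 : n = p * z + (p - 1 - s) := by omega
          have h4 : n % p = p - 1 - s := by
            rw [h3, Nat.mul_add_mod, Nat.mod_eq_of_lt (by omega)]
          have h5 : k % p = k - p := by
            rw [Nat.mod_eq_sub_mod hpk, Nat.mod_eq_of_lt (by omega)]
          rw [h4, h5]
          omega
      have hmem : p ∈ (Ioc Y k).filter Nat.Prime := by
        rw [mem_filter, mem_Ioc]
        exact ⟨⟨hYp, hpk⟩, hp⟩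
      refine le_trans (le_of_eq ?_) (single_le_sum hnn hmem)
      rw [if_pos hbad]
  have hmain := main_count (Lg k) E N D (k' + 1) k 0
    (fun q hq => by
      obtain ⟨a1, a2, a3⟩ := Lg_mem hq
      exact ⟨a1, by omega, a3, Eg_ndvd a1 a2⟩)
    hcard y hy hN0 hNM hpar1
  simp only [add_zero] at hmain
  have hlow := (abs_le.1 hmain).1
  have hup : ∑ a ∈ Icc 1 N, ∑ c ∈ Icc 1 N, WW (Lg k) (((a : ℤ) + c) * (E : ℕ))
      ≤ (((Ioc Y k).filter Nat.Prime).card : ℝ) * ((6 * k / (Y : ℝ) ^ 2 + 96 / k) * (N : ℝ) ^ 2) := by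
    refine (sum_le_sum fun a ha => sum_le_sum fun c hc => hpoint a ha c hc).trans ?_
    rw [sum_congr rfl fun a _ => sum_comm, sum_comm, ← nsmul_eq_mul, ← sum_const]
    refine sum_le_sum fun p hp => ?_
    rw [mem_filter, mem_Ioc] at hp
    have h6 : 0 ≤ 6 * (k : ℝ) / (Y : ℝ) ^ 2 := by positivity
    have h96 : 0 ≤ 96 / (k : ℝ) := by positivity
    have hN2 : 0 ≤ (N : ℝ) ^ 2 := by positivity
    by_cases h34 : p ≤ 3 * k / 4
    · refine (B_small Y k D (k' + 1) N p y hy hk (by omega) hp.2 hp.1.1 h34 hcard hpar1 hN).trans ?_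
      nlinarith [mul_nonneg h96 hN2]
    · have hpL : p ∈ Lg k := by
        unfold Lg
        rw [mem_filter, mem_Ioc]
        exact ⟨⟨by omega, hp.1.2⟩, hp.2⟩
      refine (B_large Y k D k' N p y hy hk hpL hcard hpar2 hN).trans ?_
      nlinarith [mul_nonneg h6 hN2]
  have hNr : (0 : ℝ) < (N : ℝ) ^ 2 := by positivity
  have h1 : (((Ioc Y k).filter Nat.Prime).card : ℝ) * ((6 * k / (Y : ℝ) ^ 2 + 96 / k) * (N : ℝ) ^ 2)
      < 1 / 2 * (N : ℝ) ^ 2 := by
    rw [← mul_assoc]
    exact mul_lt_mul_of_pos_right hsmall hNr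
  linarith

end Pool.Agent.H895R3.NU
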