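import Pool.Agent.H895R3.NU.J6

set_option autoImplicit false
set_option maxHeartbeats 4000000

namespace Pool.Agent.H895R3.NU

open Finset

lemma sqrt_log_small (ε : ℝ) (hε : 0 < ε) : ∃ k₁ : ℕ, ∀ k : ℕ, k₁ ≤ k →
    (Nat.sqrt k : ℝ) * Real.log k ≤ ε * k := by
  have h1 := (isLittleO_log_rpow_atTop (show (0 : ℝ) < 1 / 2 by norm_num)).bound hε
  rw [Filter.eventually_atTop] at h1
  obtain ⟨x₀, h⟩ := h1
  refine ⟨⌈x₀⌉₊ + 1, fun k hk => ?_⟩
  have hk' : x₀ ≤ (k : ℝ) := (Nat.le_ceil _).trans (by exact_mod_cast (by omega : ⌈x₀⌉₊ ≤ k))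
  have hk1 : (1 : ℝ) ≤ k := by exact_mod_cast (by omega : 1 ≤ k)
  have h3 := h (k : ℝ) hk'
  rw [Real.norm_eq_abs, Real.norm_eq_abs, abs_of_nonneg (Real.log_nonneg hk1),
    abs_of_nonneg (by positivity), ← Real.sqrt_eq_rpow] at h3
  have h4 : (Nat.sqrt k : ℝ) ≤ Real.sqrt k := Real.nat_sqrt_le_real_sqrt
  have h5 : 0 ≤ Real.sqrt (k : ℝ) := Real.sqrt_nonneg _
  calc (Nat.sqrt k : ℝ) * Real.log k ≤ Real.sqrt k * (ε * Real.sqrt k) := by
        apply mul_le_mul h4 h3 (Real.log_nonneg hk1) h5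
    _ = ε * (Real.sqrt k * Real.sqrt k) := by ring
    _ = ε * k := by rw [Real.mul_self_sqrt (by linarith)]

lemma log_Eg (Y k : ℕ) (hk : 1 ≤ k) (_ : Y ≤ 3 * k / 4) :
    Real.log (Eg Y k) ≤ Chebyshev.theta ((3 * k / 4 : ℕ) : ℝ) + Chebyshev.theta (Y : ℝ)
      + (Nat.sqrt k : ℝ) * Real.log k := by
  have hk1 : (1 : ℝ) ≤ k := by exact_mod_cast hk
  have hlogk : 0 ≤ Real.log k := Real.log_nonneg hk1
  have hset : ∀ N : ℕ, Icc 1 N = Ioc 0 N := by
    intro N
    ext x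
    rw [mem_Icc, mem_Ioc]
    omega
  have hth : ∀ N : ℕ, Chebyshev.theta (N : ℝ) = ∑ p ∈ (Icc 1 N).filter Nat.Prime, Real.log p := by
    intro N
    unfold Chebyshev.theta
    rw [Nat.floor_natCast, hset]
  have h1 : Real.log (Eg Y k) = ∑ p ∈ (Icc 1 (3 * k / 4)).filter Nat.Prime,
      (ex Y k p : ℝ) * Real.log p := by
    unfold Eg
    push_cast
    rw [Real.log_prod]
    · refine sum_congr rfl fun p _ => ?_
      rw [Real.log_pow]
    · intro p hp
      have := (mem_filter.1 hp).2.pos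
      positivity
  have h2 : ∀ p ∈ (Icc 1 (3 * k / 4)).filter Nat.Prime, (ex Y k p : ℝ) * Real.log p ≤
      Real.log p + (if p ≤ Y then Real.log p else 0) + (if p ≤ Nat.sqrt k then Real.log k else 0) := by
    intro p hp
    rw [mem_filter, mem_Icc] at hp
    have hp2 := hp.2.two_le
    have hpr : (2 : ℝ) ≤ p := by exact_mod_cast hp2
    have hlp : 0 ≤ Real.log p := Real.log_nonneg (by linarith)
    unfold ex
    by_cases hY' : p ≤ Y
    · rw [if_pos hY', if_pos hY']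
      by_cases hs : p ≤ Nat.sqrt k
      · rw [if_pos hs]
        have h3 : (Nat.log p k : ℝ) * Real.log p ≤ Real.log k := by
          rw [← Real.log_pow]
          apply Real.log_le_log (by positivity)
          exact_mod_cast Nat.pow_log_le_self p (by omega)
        push_cast
        linarith
      · rw [if_neg hs]
        push Not at hs
        have h3 : k < p ^ 2 := by
          rw [sq]
          exact Nat.sqrt_lt.1 hs
        have h4 : Nat.log p k < 2 := Nat.log_lt_of_lt_pow (by omega) h3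
        have h5 : (Nat.log p k : ℝ) ≤ 1 := by exact_mod_cast (by omega : Nat.log p k ≤ 1)
        push_cast
        nlinarith
    · rw [if_neg hY', if_neg hY']
      split_ifs
      · push_cast; linarith
      · push_cast; linarith
  rw [h1]
  refine (sum_le_sum h2).trans ?_
  rw [sum_add_distrib, sum_add_distrib, ← hth]
  have h3 : ∑ p ∈ (Icc 1 (3 * k / 4)).filter Nat.Prime, (if p ≤ Y then Real.log p else 0)
      ≤ Chebyshev.theta (Y : ℝ) := by
    rw [hth, ← sum_filter]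
    apply sum_le_sum_of_subset_of_nonneg
    · intro p hp
      rw [mem_filter, mem_filter, mem_Icc] at hp
      rw [mem_filter, mem_Icc]
      exact ⟨⟨hp.1.1.1, hp.2⟩, hp.1.2⟩
    · intro p hp _
      rw [mem_filter, mem_Icc] at hp
      exact Real.log_nonneg (by exact_mod_cast hp.1.1)
  have h4 : ∑ p ∈ (Icc 1 (3 * k / 4)).filter Nat.Prime, (if p ≤ Nat.sqrt k then Real.log k else 0)
      ≤ (Nat.sqrt k : ℝ) * Real.log k := by
    rw [← sum_filter, sum_const, nsmul_eq_mul]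
    apply mul_le_mul_of_nonneg_right _ hlogk
    have h5 : (((Icc 1 (3 * k / 4)).filter Nat.Prime).filter fun p => p ≤ Nat.sqrt k).card
        ≤ (Icc 1 (Nat.sqrt k)).card := by
      apply card_le_card
      intro p hp
      rw [mem_filter, mem_filter, mem_Icc] at hp
      rw [mem_Icc]
      exact ⟨hp.1.1.1, hp.2⟩
    rw [Nat.card_Icc, Nat.add_sub_cancel] at h5
    exact_mod_cast h5
  linarith

theorem g_upper : ∃ c : ℝ, 0 < c ∧ ∃ k₀ : ℕ, ∀ k : ℕ, k₀ ≤ k →
    ∃ n : ℕ, k + 2 ≤ n ∧ (n : ℝ) ≤ Real.exp ((1 - c) * k) ∧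
      ∀ p : ℕ, p.Prime → p ≤ k → ¬ p ∣ n.choose k := by
  obtain ⟨η, hη0, hη1, y, hy, K₀, hpar⟩ := param
  set δ : ℝ := η / 80 with hδ
  have hδ0 : 0 < δ := by positivity
  have hδ1 : δ ≤ 1 / 80 := by linarith
  obtain ⟨N₀, hth⟩ := theta_close δ hδ0
  set M₀ : ℕ := K₀ + 1 + ⌈1 / η⌉₊ with hM₀
  set L₀ : ℝ := 8 * (24 / δ ^ 2 + 96) with hL₀
  obtain ⟨k₁, hk₁⟩ := log_small 6 δ hδ0
  obtain ⟨k₂, hk₂⟩ := log_small M₀ (1 / 8) (by norm_num)
  obtain ⟨k₃, hk₃⟩ := sqrt_log_small δ hδ0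
  refine ⟨η / 8, by positivity, 64 + ⌈2 * ((N₀ : ℝ) + 2) / δ⌉₊ + k₁ + k₂ + k₃ + ⌈2 * Real.exp L₀ / δ⌉₊
    + ⌈1 / δ ^ 2⌉₊ + ⌈2 * Real.exp (1 / δ)⌉₊, fun k hk => ?_⟩
  have hk64 : 64 ≤ k := by omega
  have hkr : (64 : ℝ) ≤ k := by exact_mod_cast hk64
  have hk0 : (0 : ℝ) < k := by linarith
  have c1 : 2 * ((N₀ : ℝ) + 2) ≤ δ * k := by
    have : 2 * ((N₀ : ℝ) + 2) / δ ≤ k :=
      (Nat.le_ceil _).trans (by exact_mod_cast (by omega : ⌈2 * ((N₀ : ℝ) + 2) / δ⌉₊ ≤ k))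
    rw [div_le_iff₀ hδ0] at this
    linarith
  have c2 : 2 * Real.exp L₀ ≤ δ * k := by
    have : 2 * Real.exp L₀ / δ ≤ k :=
      (Nat.le_ceil _).trans (by exact_mod_cast (by omega : ⌈2 * Real.exp L₀ / δ⌉₊ ≤ k))
    rw [div_le_iff₀ hδ0] at this
    linarith
  have c3 : 1 ≤ δ ^ 2 * k := by
    have : 1 / δ ^ 2 ≤ k := (Nat.le_ceil _).trans (by exact_mod_cast (by omega : ⌈1 / δ ^ 2⌉₊ ≤ k))
    rw [div_le_iff₀ (by positivity)] at this
    linarith
  have c4 : 2 * Real.exp (1 / δ) ≤ k :=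
    (Nat.le_ceil _).trans (by exact_mod_cast (by omega : ⌈2 * Real.exp (1 / δ)⌉₊ ≤ k))
  have c5 := hk₁ k (by omega)
  have c6 := hk₂ k (by omega)
  have c7 := hk₃ k (by omega)
  have hlogk2 : Real.log k ≤ Real.log (2 * k) := Real.log_le_log hk0 (by linarith)
  have hlogk0 : 0 < Real.log k := Real.log_pos (by linarith)
  have hlog2k : 2 ≤ Real.log (2 * k) := by
    rw [Real.le_log_iff_exp_le (by linarith)]
    have h1 : Real.exp 2 = Real.exp 1 * Real.exp 1 := by rw [← Real.exp_add]; norm_num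
    have h2 := Real.exp_one_lt_d9
    have h3 := Real.exp_pos 1
    rw [h1]
    nlinarith
  -- Y
  set Y : ℕ := ⌊δ * k⌋₊ with hY
  have hY1 : (Y : ℝ) ≤ δ * k := Nat.floor_le (by positivity)
  have hY2 : δ * k < Y + 1 := Nat.lt_floor_add_one _
  have hYlow : δ * k / 2 ≤ Y := by
    have : (0 : ℝ) ≤ N₀ := by positivity
    linarith
  have hYN : N₀ + 1 ≤ Y := by
    have : ((N₀ + 1 : ℕ) : ℝ) ≤ Y := by
      push_cast
      have : (0 : ℝ) ≤ N₀ := by positivity
      linarith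
    exact_mod_cast this
  have hY2' : 2 ≤ Y := by
    have : ((2 : ℕ) : ℝ) < Y + 1 := by
      push_cast
      have : (0 : ℝ) ≤ N₀ := by positivity
      linarith
    have : 2 < Y + 1 := by exact_mod_cast this
    omega
  set h : ℕ := 3 * k / 4 with hh
  have hhr1 : (h : ℝ) ≤ 3 / 4 * k := by
    have : 4 * h ≤ 3 * k := by omega
    have : (4 : ℝ) * h ≤ 3 * k := by exact_mod_cast this
    linarith
  have hhr2 : 3 / 4 * (k : ℝ) - 1 ≤ h := by
    have : 3 * k ≤ 4 * h + 4 := by omega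
    have : (3 : ℝ) * k ≤ 4 * h + 4 := by exact_mod_cast this
    linarith
  have hδk : δ * k ≤ k / 80 := by nlinarith
  have hYh : Y ≤ 3 * k / 4 := by
    have : (Y : ℝ) ≤ h := by linarith
    exact_mod_cast this
  have hYk : k < (Y + 1) * (Y + 1) := by
    have h1 : (k : ℝ) < ((Y : ℝ) + 1) * (Y + 1) := by
      have h2 : (δ * k) * (δ * k) < ((Y : ℝ) + 1) * (Y + 1) := by
        apply mul_lt_mul'' hY2 hY2 (by positivity) (by positivity)
      have h3 : (k : ℝ) ≤ (δ * k) * (δ * k) := by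
        have h4 : (δ * k) * (δ * k) = (δ ^ 2 * k) * k := by ring
        rw [h4]
        nlinarith
      linarith
    exact_mod_cast h1
  have hYr : (2 : ℝ) ≤ Y := by exact_mod_cast hY2'
  have hhN : N₀ ≤ h := by omega
  -- theta values
  have t1 := abs_le.1 (hth k (by omega))
  have t2 := abs_le.1 (hth h hhN)
  have t3 := abs_le.1 (hth Y (by omega))
  have s1 := Pool.Agent.H895R3.NK.theta_sub h k (by omega)
  have s2 := Pool.Agent.H895R3.NK.theta_sub Y k (by omega)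
  set T0 := Chebyshev.theta (Y : ℝ) with hT0
  set T1 := Chebyshev.theta (h : ℝ) with hT1
  set T2 := Chebyshev.theta (k : ℝ) with hT2
  have hδh : δ * h ≤ 3 / 4 * (δ * k) := by nlinarith
  have hδY : δ * Y ≤ 1 / 80 * (δ * k) := by nlinarith
  have u1 : T2 - T1 ≤ k / 4 + 1 + 7 / 4 * (δ * k) := by linarith [t1.2, t2.1]
  have u2 : k / 4 - 7 / 4 * (δ * k) ≤ T2 - T1 := by linarith [t1.1, t2.2]
  have u3 : T1 ≤ 3 / 4 * k + 3 / 4 * (δ * k) := by linarith [t2.2]
  have u4 : T0 ≤ 81 / 80 * (δ * k) := by linarith [t3.2]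
  have hT00 : 0 ≤ T0 := by
    have h1 : 0 ≤ (1 - δ) * (Y : ℝ) := by
      apply mul_nonneg <;> linarith
    linarith [t3.1]
  -- number of primes in (Y, k]
  have hlogY : L₀ ≤ Real.log Y := by
    rw [Real.le_log_iff_exp_le (by linarith)]
    linarith
  have hL₀0 : 0 < L₀ := by positivity
  set π' := ((Ioc Y k).filter Nat.Prime).card with hπ'
  have hπlog : (π' : ℝ) * Real.log Y ≤ T2 - T0 := by
    rw [s2, hπ', ← nsmul_eq_mul]
    apply card_nsmul_le_sum
    intro p hp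
    rw [mem_filter, mem_Ioc] at hp
    apply Real.log_le_log (by linarith)
    exact_mod_cast hp.1.1.le
  have hπ0 : (0 : ℝ) ≤ π' := by positivity
  have hπ2 : (π' : ℝ) * L₀ ≤ 2 * k := by
    have h1 : (π' : ℝ) * L₀ ≤ π' * Real.log Y := mul_le_mul_of_nonneg_left hlogY hπ0
    linarith [t1.2]
  have hsmall : (π' : ℝ) * (6 * k / (Y : ℝ) ^ 2 + 96 / k) < 1 / 2 := by
    have h1 : 6 * (k : ℝ) / (Y : ℝ) ^ 2 ≤ 24 / δ ^ 2 / k := by
      rw [div_div, div_le_div_iff₀ (by positivity) (by positivity)]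
      have h2 : (δ * k / 2) ^ 2 ≤ (Y : ℝ) ^ 2 := pow_le_pow_left₀ (by positivity) hYlow 2
      nlinarith
    have h2 : (π' : ℝ) * (6 * k / (Y : ℝ) ^ 2 + 96 / k) ≤ π' * ((24 / δ ^ 2 + 96) / k) := by
      apply mul_le_mul_of_nonneg_left _ hπ0
      rw [add_div]
      linarith
    have h3 : (π' : ℝ) * ((24 / δ ^ 2 + 96) / k) ≤ 1 / 4 := by
      rw [← mul_div_assoc, div_le_iff₀ hk0]
      have h4 : (π' : ℝ) * (24 / δ ^ 2 + 96) = (π' * L₀) / 8 := by rw [hL₀]; ring
      rw [h4]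
      linarith
    linarith
  -- the upper primes
  set K := (Lg k).card with hK
  have hLL : Lg k = (Ioc h k).filter Nat.Prime := rfl
  have hh0 : (0 : ℝ) < h := by linarith
  have hKlow : (K : ℝ) * Real.log h ≤ T2 - T1 := by
    rw [s1, ← hLL, hK, ← nsmul_eq_mul]
    apply card_nsmul_le_sum
    intro p hp
    obtain ⟨hp1, hp2, hp3⟩ := Lg_mem hp
    apply Real.log_le_log hh0
    exact_mod_cast hp2.le
  have hKup : T2 - T1 ≤ (K : ℝ) * Real.log k := by
    rw [s1, ← hLL, hK, ← nsmul_eq_mul]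
    apply sum_le_card_nsmul
    intro p hp
    obtain ⟨hp1, hp2, hp3⟩ := Lg_mem hp
    apply Real.log_le_log
    · exact_mod_cast hp1.pos
    · exact_mod_cast hp3
  have hKM : M₀ ≤ K := by
    have h0 : (M₀ : ℝ) * Real.log k ≤ M₀ * Real.log (2 * k) := by gcongr
    have h1 : (M₀ : ℝ) * Real.log k ≤ K * Real.log k := by linarith
    have h2 := le_of_mul_le_mul_right h1 hlogk0
    exact_mod_cast h2
  have hlogh : 1 / δ ≤ Real.log h := by
    rw [Real.le_log_iff_exp_le hh0]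
    linarith
  have hK0 : (0 : ℝ) ≤ K := by positivity
  have hKδ : (K : ℝ) ≤ δ * k := by
    have h1 : (K : ℝ) * (1 / δ) ≤ K * Real.log h := mul_le_mul_of_nonneg_left hlogh hK0
    have h2 : (K : ℝ) * (1 / δ) ≤ k := by linarith
    rw [mul_one_div, div_le_iff₀ hδ0] at h2
    linarith
  have hlog2 : Real.log 2 ≤ 1 := by
    have := Real.log_two_lt_d9
    linarith
  have hlog2' : 0 < Real.log 2 := Real.log_pos (by norm_num)
  have hloghk : Real.log k ≤ Real.log h + Real.log 2 := by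
    rw [← Real.log_mul (by linarith) (by norm_num)]
    apply Real.log_le_log hk0
    linarith
  have hKlog : (K : ℝ) * Real.log k ≤ k / 4 + 1 + 11 / 4 * (δ * k) := by
    have h1 : (K : ℝ) * Real.log k ≤ K * Real.log h + K * Real.log 2 := by
      rw [← mul_add]
      exact mul_le_mul_of_nonneg_left hloghk hK0
    have h2 : (K : ℝ) * Real.log 2 ≤ K * 1 := mul_le_mul_of_nonneg_left hlog2 hK0
    linarith
  -- choice of k'
  have hηK : 1 ≤ ⌊η * K⌋₊ := by
    apply Nat.le_floor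
    push_cast
    have h1 : 1 / η ≤ K := by
      have h2 : ⌈1 / η⌉₊ ≤ K := by omega
      exact (Nat.le_ceil _).trans (by exact_mod_cast h2)
    rw [div_le_iff₀ hη0] at h1
    linarith
  obtain ⟨k', hk'⟩ : ∃ k', ⌊η * K⌋₊ = k' + 1 := ⟨⌊η * K⌋₊ - 1, by omega⟩
  have hk'1 : ((k' : ℝ) + 1) ≤ η * K := by
    have h1 := Nat.floor_le (show 0 ≤ η * (K : ℝ) by positivity)
    rw [hk'] at h1
    push_cast at h1
    exact h1
  have hk'2 : η * K < (k' : ℝ) + 1 + 1 := by
    have h1 := Nat.lt_floor_add_one (η * (K : ℝ))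
    rw [hk'] at h1
    push_cast at h1
    exact h1
  have hk'K : k' + 1 ≤ K := by
    have : ((k' + 1 : ℕ) : ℝ) ≤ K := by
      push_cast
      exact hk'1.trans (by nlinarith)
    exact_mod_cast this
  obtain ⟨D, hD⟩ : ∃ D, K = D + (k' + 1) := ⟨K - (k' + 1), by omega⟩
  have hKr : (K : ℝ) = D + (k' + 1) := by exact_mod_cast hD
  have hDr : (D : ℝ) ≤ (1 - η) * K + 1 := by linarith
  have hp1 := hpar D (k' + 1) (by omega) (by rw [← hD]; push_cast; exact hk'1)
  have hp2 := hpar D k' (by omega) (by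
    have h1 : ((D + k' : ℕ) : ℝ) = K - 1 := by push_cast; linarith
    rw [h1]
    nlinarith)
  obtain ⟨n, hn1, hn2, hn3⟩ := gexist Y k D k' _ y hy hk64 hY2' hYh hYk hD hp1 hp2 rfl hsmall
  refine ⟨n, hn1, ?_, hn3⟩
  have hE0 : 0 < Eg Y k := Eg_pos Y k
  have hEr : (0 : ℝ) < Eg Y k := by exact_mod_cast hE0
  have hn0 : (0 : ℝ) < n := by exact_mod_cast (by omega : 0 < n)
  rw [← Real.log_le_iff_le_exp hn0]
  have hB : (n : ℝ) ≤ 2 * (k ^ 2 * (4 * 2 ^ K * k ^ D)) * Eg Y k := by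
    rw [hD]
    exact_mod_cast hn2
  have h1 := Real.log_le_log hn0 hB
  rw [Real.log_mul (by positivity) (by positivity), Real.log_mul (by positivity) (by positivity),
    Real.log_mul (by positivity) (by positivity), Real.log_mul (by positivity) (by positivity),
    Real.log_mul (by positivity) (by positivity), Real.log_pow, Real.log_pow, Real.log_pow] at h1
  have hlog4 : Real.log 4 ≤ 2 := by
    have : (4 : ℝ) = 2 ^ 2 := by norm_num
    rw [this, Real.log_pow]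
    push_cast
    linarith
  have hEb := log_Eg Y k (by omega) hYh
  have hDlog : (D : ℝ) * Real.log k ≤ (1 - η) * (K * Real.log k) + Real.log k := by
    calc (D : ℝ) * Real.log k ≤ ((1 - η) * K + 1) * Real.log k := by gcongr
      _ = _ := by ring
  have h1η : 0 ≤ 1 - η := by linarith
  have h5 : (1 - η) * (K * Real.log k) ≤ (1 - η) * (k / 4) + 1 + 11 / 4 * (δ * k) := by
    calc (1 - η) * (K * Real.log k) ≤ (1 - η) * (k / 4 + 1 + 11 / 4 * (δ * k)) :=
          mul_le_mul_of_nonneg_left hKlog h1η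
      _ = (1 - η) * (k / 4) + (1 - η) * (1 + 11 / 4 * (δ * k)) := by ring
      _ ≤ (1 - η) * (k / 4) + 1 * (1 + 11 / 4 * (δ * k)) := by
          have : 0 ≤ 1 + 11 / 4 * (δ * k) := by positivity
          have h6 : 1 - η ≤ 1 := by linarith
          nlinarith [mul_le_mul_of_nonneg_right h6 this]
      _ = _ := by ring
  have h6 : (K : ℝ) * Real.log 2 ≤ K * 1 := mul_le_mul_of_nonneg_left hlog2 hK0
  have h8 : (1 - η) * ((k : ℝ) / 4) = k / 4 - 20 * (δ * k) := by
    rw [hδ]; ring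
  have h9 : (1 - η / 8) * (k : ℝ) = k - 10 * (δ * k) := by
    rw [hδ]; ring
  rw [h9]
  push_cast at h1
  linarith

end Pool.Agent.H895R3.NU
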